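import Mathlib

set_option autoImplicit false
open Set Real MeasureTheory

namespace Pool.Agent.H.MP_281b2c_an

theorem step (Ψ Λ : ℝ → ℝ) {a b : ℝ} (hab : a ≤ b)
    (h : ∀ ε > 0, ∃ δ > 0, ∀ x y, a ≤ x → x ≤ y → y ≤ b → y - x < δ →
      -ε * (Λ y - Λ x) ≤ Ψ y - Ψ x) : Ψ a ≤ Ψ b := by
  have key : ∀ ε > 0, Ψ a + ε * Λ a ≤ Ψ b + ε * Λ b := by
    intro ε hε
    obtain ⟨δ, hδ, H⟩ := h ε hε
    have ind : ∀ n : ℕ, ∀ y, a ≤ y → y ≤ b → y ≤ a + n * (δ / 2) →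
        Ψ a + ε * Λ a ≤ Ψ y + ε * Λ y := by
      intro n
      induction n with
      | zero =>
        intro y h1 _ h3
        have : y = a := by simp at h3; linarith
        rw [this]
      | succ n ih =>
        intro y h1 h2 h3
        by_cases hy : y ≤ a + n * (δ / 2)
        · exact ih y h1 h2 hy
        · push Not at hy
          have hn : (0:ℝ) ≤ n * (δ / 2) := by positivity
          have e1 := ih (a + n * (δ / 2)) (by linarith) (by linarith) le_rfl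
          have e2 := H (a + n * (δ / 2)) y (by linarith) hy.le h2 (by push_cast at h3; linarith)
          linarith
    obtain ⟨n, hn⟩ := exists_nat_ge ((b - a) / (δ / 2))
    refine ind n b hab le_rfl ?_
    rw [div_le_iff₀ (by positivity)] at hn
    linarith
  by_contra hc
  push Not at hc
  have h1 := key ((Ψ a - Ψ b) / (2 * (|Λ b - Λ a| + 1))) (by
    apply div_pos (by linarith); positivity)
  have h2 : Λ b - Λ a ≤ |Λ b - Λ a| := le_abs_self _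
  have h3 : 0 ≤ |Λ b - Λ a| := abs_nonneg _
  set e := (Ψ a - Ψ b) / (2 * (|Λ b - Λ a| + 1)) with he
  have h4 : e * (2 * (|Λ b - Λ a| + 1)) = Ψ a - Ψ b := by rw [he]; field_simp
  have h5 : 0 < e := by rw [he]; apply div_pos (by linarith); positivity
  nlinarith

noncomputable def mm (η σ θ : ℝ) : ℝ := √(1 - 2 * exp σ * cos θ + exp σ ^ 2 + η ^ 2)

noncomputable def YY (η l σ θ : ℝ) : ℝ := arcosh ((1 + mm η σ θ) * exp (-σ) + l)

theorem arg_ge (σ θ : ℝ) : (exp σ - 1) ^ 2 ≤ 1 - 2 * exp σ * cos θ + exp σ ^ 2 := by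
  have := cos_le_one θ
  have := exp_pos σ
  nlinarith

theorem mm_sq (η σ θ : ℝ) : mm η σ θ ^ 2 = 1 - 2 * exp σ * cos θ + exp σ ^ 2 + η ^ 2 := by
  unfold mm
  rw [sq_sqrt]
  have := arg_ge σ θ
  nlinarith [sq_nonneg (exp σ - 1), sq_nonneg η]

theorem mm_nonneg (η σ θ : ℝ) : 0 ≤ mm η σ θ := sqrt_nonneg _

theorem mm_ge {η : ℝ} (hη : 0 < η) (σ θ : ℝ) : η ≤ mm η σ θ := by
  apply le_of_sq_le_sq _ (mm_nonneg _ _ _)
  rw [mm_sq]
  nlinarith [arg_ge σ θ, sq_nonneg (exp σ - 1)]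

theorem mm_pos {η : ℝ} (hη : 0 < η) (σ θ : ℝ) : 0 < mm η σ θ := hη.trans_le (mm_ge hη σ θ)

theorem mm_ge_abs (η σ θ : ℝ) : |exp σ - 1| ≤ mm η σ θ := by
  apply le_of_sq_le_sq _ (mm_nonneg _ _ _)
  rw [mm_sq, sq_abs]
  nlinarith [arg_ge σ θ, sq_nonneg η]

theorem q_ge (η σ θ : ℝ) : 1 ≤ (1 + mm η σ θ) * exp (-σ) := by
  have h1 := mm_ge_abs η σ θ
  have h2 := le_abs_self (exp σ - 1)
  rw [exp_neg, ← div_eq_mul_inv, le_div_iff₀ (exp_pos σ)]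
  linarith

theorem mm_cont (η : ℝ) : Continuous fun p : ℝ × ℝ => mm η p.1 p.2 := by
  unfold mm; fun_prop

theorem mm_mono (η σ : ℝ) {x y : ℝ} (hx : 0 ≤ x) (hxy : x ≤ y) (hy : y ≤ π) :
    mm η σ x ≤ mm η σ y := by
  unfold mm
  apply sqrt_le_sqrt
  have := cos_le_cos_of_nonneg_of_le_pi hx hy hxy
  have := exp_pos σ
  nlinarith

theorem alg1 {m r q l η c s : ℝ} (hm : 0 < m) (hr0 : 0 < r) (hq : 1 ≤ q) (hl0 : 0 < l)
    (hqr : q * r = 1 + m) (hlr : η ^ 2 ≤ 2 * l * r) (hm2 : m ^ 2 = 1 - 2 * r * c + r ^ 2 + η ^ 2)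
    (hs : s ^ 2 + c ^ 2 = 1) :
    m * ((-q + (r - c) / m) ^ 2 + (s / m) ^ 2) ≤ (q + l) ^ 2 - 1 := by
  have k1 : m * ((-q + (r - c) / m) ^ 2 + (s / m) ^ 2) =
      m * q ^ 2 - 2 * q * (r - c) + (m ^ 2 - η ^ 2) / m := by
    field_simp
    nlinarith
  have k2 : (m ^ 2 - η ^ 2) / m ≤ m := by rw [div_le_iff₀ hm]; nlinarith [sq_nonneg η]
  have k3 : (m * q ^ 2 - 2 * q * (r - c) + m) * r ^ 2 =
      (q ^ 2 - 1) * r ^ 2 + η ^ 2 * (q * r) := by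
    have k4 : 2 * r * (r - c) = r ^ 2 - 1 - η ^ 2 + m ^ 2 := by nlinarith
    have k5 : (m * q ^ 2 - 2 * q * (r - c) + m) * r ^ 2 =
        m * (q * r) ^ 2 - (q * r) * (2 * r * (r - c)) + m * r ^ 2 := by ring
    have k6 : (q ^ 2 - 1) * r ^ 2 = (q * r) ^ 2 - r ^ 2 := by ring
    rw [k5, k6, k4, hqr]; ring
  have k7 : η ^ 2 * (q * r) ≤ 2 * l * q * r ^ 2 := by
    have : 0 ≤ q * r := by positivity
    nlinarith
  have k8 : (m * q ^ 2 - 2 * q * (r - c) + m) * r ^ 2 ≤ ((q + l) ^ 2 - 1) * r ^ 2 := by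
    rw [k3]; nlinarith [sq_nonneg (l * r)]
  have k9 := le_of_mul_le_mul_right k8 (by positivity)
  linarith

theorem alg2 {m x y d1 d2 P : ℝ} (hm : 0 < m) (hgrad : m * (x ^ 2 + y ^ 2) ≤ P) :
    (x * d1 + y * d2) ^ 2 * m ≤ (d1 ^ 2 + d2 ^ 2) * P := by
  have c1 : (x * d1 + y * d2) ^ 2 ≤ (x ^ 2 + y ^ 2) * (d1 ^ 2 + d2 ^ 2) := by
    nlinarith [sq_nonneg (x * d2 - y * d1)]
  have c2 : 0 ≤ d1 ^ 2 + d2 ^ 2 := by positivity
  nlinarith [mul_le_mul_of_nonneg_right hgrad c2, mul_le_mul_of_nonneg_right c1 hm.le]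

theorem lip {η a : ℝ} (hη : 0 < η) {σ1 σ2 θ1 θ2 C : ℝ} (h1 : a ≤ σ1) (h2 : a ≤ σ2)
    (hC : ∀ u ∈ Icc (0:ℝ) 1, (√(mm η (σ1 + u * (σ2 - σ1)) (θ1 + u * (θ2 - θ1))))⁻¹ ≤ C) :
    YY η (η ^ 2 * exp (-a) / 2) σ1 θ1 - YY η (η ^ 2 * exp (-a) / 2) σ2 θ2 ≤
      C * √((σ2 - σ1) ^ 2 + (θ2 - θ1) ^ 2) := by
  obtain ⟨l, hl⟩ : ∃ l, l = η ^ 2 * exp (-a) / 2 := ⟨_, rfl⟩
  rw [← hl]
  have hl0 : 0 < l := by rw [hl]; positivity
  obtain ⟨d1, hd1⟩ : ∃ d, d = σ2 - σ1 := ⟨_, rfl⟩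
  obtain ⟨d2, hd2⟩ : ∃ d, d = θ2 - θ1 := ⟨_, rfl⟩
  rw [← hd1, ← hd2] at hC ⊢
  have hder : ∀ u ∈ Icc (0:ℝ) 1, ∃ D, HasDerivAt (fun u => YY η l (σ1 + u * d1) (θ1 + u * d2)) D u ∧
      ‖D‖ ≤ C * √(d1 ^ 2 + d2 ^ 2) := by
    intro u hu
    obtain ⟨σ, hσ⟩ : ∃ x, x = σ1 + u * d1 := ⟨_, rfl⟩
    obtain ⟨θ, hθ⟩ : ∃ x, x = θ1 + u * d2 := ⟨_, rfl⟩
    have hσa : a ≤ σ := by rw [hσ, hd1]; nlinarith [hu.1, hu.2]
    have hC' := hC u hu
    rw [← hσ, ← hθ] at hC'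
    have hm := mm_pos hη σ θ
    have hm2 := mm_sq η σ θ
    have hq := q_ge η σ θ
    have e1 : HasDerivAt (fun u => σ1 + u * d1) d1 u := by
      simpa using ((hasDerivAt_id u).mul_const d1).const_add σ1
    have e2 : HasDerivAt (fun u => θ1 + u * d2) d2 u := by
      simpa using ((hasDerivAt_id u).mul_const d2).const_add θ1
    have e3 : HasDerivAt (fun u => 1 - 2 * exp (σ1 + u * d1) * cos (θ1 + u * d2) +
        exp (σ1 + u * d1) ^ 2 + η ^ 2)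
        (2 * exp σ * ((exp σ - cos θ) * d1 + sin θ * d2)) u := by
      have := ((((e1.exp.const_mul 2).fun_mul e2.cos).const_sub 1).fun_add (e1.exp.fun_pow 2)).add_const (η ^ 2)
      refine this.congr_deriv ?_
      rw [← hσ, ← hθ]; simp; ring
    have e4 : HasDerivAt (fun u => mm η (σ1 + u * d1) (θ1 + u * d2))
        (exp σ * ((exp σ - cos θ) * d1 + sin θ * d2) / mm η σ θ) u := by
      have := e3.sqrt (by rw [← hσ, ← hθ, ← hm2]; positivity)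
      refine this.congr_deriv ?_
      rw [← hσ, ← hθ]
      change _ / (2 * mm η σ θ) = _
      field_simp
    have e5 : HasDerivAt (fun u => (1 + mm η (σ1 + u * d1) (θ1 + u * d2)) * exp (-(σ1 + u * d1)) + l)
        ((-((1 + mm η σ θ) * exp (-σ)) + (exp σ - cos θ) / mm η σ θ) * d1 + sin θ / mm η σ θ * d2) u := by
      have := ((e4.const_add 1).fun_mul e1.fun_neg.exp).add_const l
      refine this.congr_deriv ?_
      rw [← hσ, ← hθ, exp_neg]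
      have := exp_pos σ
      field_simp
      ring
    have e6 := (hasDerivAt_arcosh (x := (1 + mm η (σ1 + u * d1) (θ1 + u * d2)) * exp (-(σ1 + u * d1)) + l)
      (by rw [← hσ, ← hθ]; simp only [mem_Ioi]; linarith)).comp u e5
    refine ⟨_, e6, ?_⟩
    rw [← hσ, ← hθ]
    obtain ⟨m, hmm⟩ : ∃ m, m = mm η σ θ := ⟨_, rfl⟩
    rw [← hmm] at hC' hm hm2 hq ⊢
    obtain ⟨q, hqq⟩ : ∃ q, q = (1 + m) * exp (-σ) := ⟨_, rfl⟩
    rw [← hqq] at hq ⊢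
    obtain ⟨r, hr⟩ : ∃ r, r = exp σ := ⟨_, rfl⟩
    have hr0 : 0 < r := by rw [hr]; exact exp_pos σ
    have hqr : q * r = 1 + m := by rw [hqq, hr, exp_neg]; have := exp_pos σ; field_simp
    have hlr : η ^ 2 ≤ 2 * l * r := by
      have : 1 ≤ exp (-a) * exp σ := by rw [← exp_add]; exact one_le_exp (by linarith)
      rw [hl, hr]; linarith [mul_le_mul_of_nonneg_left this (sq_nonneg η)]
    rw [← hr] at hm2 ⊢
    have hP : 0 < (q + l) ^ 2 - 1 := by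
      have := pow_lt_pow_left₀ (show 1 < q + l by linarith) zero_le_one two_ne_zero
      linarith
    have hs := sin_sq_add_cos_sq θ
    have hgrad := alg1 hm hr0 hq hl0 hqr hlr hm2 hs
    obtain ⟨x, hx⟩ : ∃ x, x = -q + (r - cos θ) / m := ⟨_, rfl⟩
    obtain ⟨y, hy⟩ : ∃ y, y = sin θ / m := ⟨_, rfl⟩
    rw [← hx, ← hy] at hgrad ⊢
    have hsq : 0 < √((q + l) ^ 2 - 1) := sqrt_pos.2 hP
    have hsm : 0 < √m := sqrt_pos.2 hm
    refine le_trans ?_ (mul_le_mul_of_nonneg_right hC' (sqrt_nonneg _))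
    apply le_of_sq_le_sq _ (by positivity)
    rw [Real.norm_eq_abs, sq_abs, mul_pow, mul_pow, inv_pow, inv_pow, sq_sqrt hP.le, sq_sqrt hm.le,
      sq_sqrt (by positivity), inv_mul_eq_div, inv_mul_eq_div, div_le_div_iff₀ hP hm]
    exact alg2 hm hgrad
  choose! D hD using hder
  have := norm_image_sub_le_of_norm_deriv_le_segment_01'
    (f := fun u => YY η l (σ1 + u * d1) (θ1 + u * d2)) (f' := D)
    (fun u hu => (hD u hu).1.hasDerivWithinAt) (fun u hu => (hD u (Ico_subset_Icc_self hu)).2)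
  simp only [one_mul, zero_mul, add_zero] at this
  rw [hd1, hd2, add_sub_cancel, add_sub_cancel, ← hd1, ← hd2, Real.norm_eq_abs] at this
  have h3 := neg_abs_le (YY η l σ2 θ2 - YY η l σ1 θ1)
  linarith

end Pool.Agent.H.MP_281b2c_an
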