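import Pool.Agent.H.MP_281b2c_an.A

set_option autoImplicit false
open Set Real MeasureTheory Filter Topology

namespace Pool.Agent.H.MP_281b2c_an

structure Dat where
  T : ℝ
  τ : ℝ
  a : ℝ
  S : ℝ
  B : ℝ
  s : ℝ × ℝ → ℝ
  g : ℝ × ℝ → ℂ
  hT : 0 < T
  hτ : 0 < τ
  ha : a < 0
  hS0 : 0 ≤ S
  cs : Continuous s
  cg : Continuous g
  hd : ∀ t ξ, HasDerivAt (fun x => s (t, x)) (g (t, ξ)).re ξ
  hZ : ∀ t σ, {ξ | ξ ∈ Icc (-T) T ∧ s (t, ξ) = σ}.Countable
  hl : ∀ t, s (t, -T) ≤ a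
  hr : ∀ t, s (t, T) ≤ a
  hmax : ∀ t, ∃ ξ ∈ Icc (-T) T, 0 ≤ s (t, ξ)
  hS : ∀ t, ∀ ξ ∈ Icc (-T) T, s (t, ξ) ≤ S
  hB : ∀ t, ∀ ξ ∈ Icc (-T) T, ‖g (t, ξ)‖ ≤ B
  hse : ∀ ξ, s (0, -ξ) = s (0, ξ)
  hgo : ∀ ξ, g (0, -ξ) = -g (0, ξ)
  hID : ∀ φ β : ℝ → ℝ, Continuous φ → (∀ x, HasDerivAt β (φ x) x) → (∀ x ≤ a, β x = 0) →
    ∀ t1 t2, 0 ≤ t1 → t1 ≤ t2 → t2 ≤ τ →
    ∫ p in Ioc t1 t2 ×ˢ Ioc (-T) T, φ (s p) * ‖g p‖ ^ 2 =
      (∫ ξ in Ioc (-T) T, β (s (t1, ξ)) * (g (t1, ξ)).im) -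
        ∫ ξ in Ioc (-T) T, β (s (t2, ξ)) * (g (t2, ξ)).im
  hAI : ∀ b, a ≤ b → ∫ p in (Ioc 0 τ ×ˢ Ioc (-T) T) ∩ {p | a < s p ∧ s p ≤ b},
    exp (s p) ^ 2 * ‖g p‖ ^ 2 ≤ π * (exp b ^ 2 - exp a ^ 2)

namespace Dat

variable (D : Dat)

def E (t c : ℝ) : Set ℝ := Ioc (-D.T) D.T ∩ {ξ | c < D.s (t, ξ)}

def R (t1 t2 c : ℝ) : Set (ℝ × ℝ) := (Ioc t1 t2 ×ˢ Ioc (-D.T) D.T) ∩ {p | c < D.s p}

noncomputable def A (c t : ℝ) : ℝ := -∫ ξ in D.E t c, (D.g (t, ξ)).im

theorem cs1 (t : ℝ) : Continuous fun ξ => D.s (t, ξ) := D.cs.comp (by fun_prop)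

theorem cg1 (t : ℝ) : Continuous fun ξ => D.g (t, ξ) := D.cg.comp (by fun_prop)

theorem mE0 (t c : ℝ) : MeasurableSet {ξ | c < D.s (t, ξ)} :=
  (isOpen_lt continuous_const (D.cs1 t)).measurableSet

theorem mE (t c : ℝ) : MeasurableSet (D.E t c) := measurableSet_Ioc.inter (D.mE0 t c)

theorem mR0 (c : ℝ) : MeasurableSet {p | c < D.s p} :=
  (isOpen_lt continuous_const D.cs).measurableSet

theorem mR (t1 t2 c : ℝ) : MeasurableSet (D.R t1 t2 c) :=
  (measurableSet_Ioc.prod measurableSet_Ioc).inter (D.mR0 c)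

theorem iE {h : ℝ → ℝ} (hh : Continuous h) (t c : ℝ) : IntegrableOn h (D.E t c) :=
  (hh.continuousOn.integrableOn_compact (isCompact_Icc (a := -D.T) (b := D.T))).mono_set
    (fun _ hx => Ioc_subset_Icc_self hx.1)

theorem iQ {h : ℝ × ℝ → ℝ} (hh : Continuous h) (a b c d : ℝ) :
    IntegrableOn h (Ioc a b ×ˢ Ioc c d) :=
  (hh.continuousOn.integrableOn_compact ((isCompact_Icc (a := a) (b := b)).prod
    (isCompact_Icc (a := c) (b := d)))).mono_set (prod_mono Ioc_subset_Icc_self Ioc_subset_Icc_self)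

theorem iR {h : ℝ × ℝ → ℝ} (hh : Continuous h) (t1 t2 c : ℝ) : IntegrableOn h (D.R t1 t2 c) :=
  (iQ hh _ _ _ _).mono_set inter_subset_left

theorem intE (h : ℝ → ℝ) (t c : ℝ) : ∫ ξ in D.E t c, h ξ =
    ∫ ξ in Ioc (-D.T) D.T, if c < D.s (t, ξ) then h ξ else 0 := by
  rw [E, ← setIntegral_indicator (D.mE0 t c)]
  refine integral_congr_ae (Eventually.of_forall fun ξ => ?_)
  simp [indicator_apply]

theorem A_eq (c t : ℝ) : D.A c t =
    -∫ ξ in Ioc (-D.T) D.T, if c < D.s (t, ξ) then (D.g (t, ξ)).im else 0 := by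
  rw [A, intE]

theorem A_cont : Continuous fun p : ℝ × ℝ => D.A p.1 p.2 := by
  simp only [A_eq]
  refine Continuous.neg (continuous_iff_continuousAt.2 fun p0 => ?_)
  refine continuousAt_of_dominated (bound := fun _ => D.B) ?_ ?_ ?_ ?_
  · refine Eventually.of_forall fun p => ?_
    refine Measurable.aestronglyMeasurable (Measurable.ite (D.mE0 _ _) ?_ measurable_const)
    exact (Complex.continuous_im.comp (D.cg1 _)).measurable
  · refine Eventually.of_forall fun p => ?_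
    filter_upwards [ae_restrict_mem measurableSet_Ioc] with ξ hξ
    have h1 := D.hB p.2 ξ (Ioc_subset_Icc_self hξ)
    split_ifs
    · exact (Complex.abs_im_le_norm _).trans h1
    · simpa using (norm_nonneg _).trans h1
  · exact integrable_const _
  · have h0 := (D.hZ p0.2 p0.1).measure_zero volume
    have h1 : ∀ᵐ ξ ∂(volume.restrict (Ioc (-D.T) D.T)),
        ξ ∉ {ξ | ξ ∈ Icc (-D.T) D.T ∧ D.s (p0.2, ξ) = p0.1} :=
      ae_restrict_of_ae (measure_eq_zero_iff_ae_notMem.1 h0)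
    filter_upwards [ae_restrict_mem measurableSet_Ioc, h1] with ξ hξ hn
    have hne : D.s (p0.2, ξ) ≠ p0.1 := fun h => hn ⟨Ioc_subset_Icc_self hξ, h⟩
    have c1 : Continuous fun p : ℝ × ℝ => D.s (p.2, ξ) := D.cs.comp (by fun_prop)
    have c2 : Continuous fun p : ℝ × ℝ => (D.g (p.2, ξ)).im :=
      Complex.continuous_im.comp (D.cg.comp (by fun_prop))
    rcases lt_or_gt_of_ne hne with h | h
    · have : ∀ᶠ p : ℝ × ℝ in 𝓝 p0, D.s (p.2, ξ) < p.1 :=
        (isOpen_lt c1 continuous_fst).mem_nhds h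
      refine (continuousAt_const (y := (0:ℝ))).congr ?_
      filter_upwards [this] with p hp
      rw [if_neg hp.le.not_gt]
    · have : ∀ᶠ p : ℝ × ℝ in 𝓝 p0, p.1 < D.s (p.2, ξ) :=
        (isOpen_lt continuous_fst c1).mem_nhds h
      refine c2.continuousAt.congr ?_
      filter_upwards [this] with p hp
      rw [if_pos hp]

theorem A_cont1 (t : ℝ) : Continuous fun c => D.A c t :=
  D.A_cont.comp (f := fun c => (c, t)) (by fun_prop)

theorem A_zero (c : ℝ) : D.A c 0 = 0 := by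
  rw [A_eq, ← intervalIntegral.integral_of_le (by linarith [D.hT])]
  have := intervalIntegral.integral_comp_neg (a := -D.T) (b := D.T)
    (fun ξ => if c < D.s (0, ξ) then (D.g (0, ξ)).im else 0)
  simp only [D.hse, D.hgo, neg_neg] at this
  have h2 : (∫ x in -D.T..D.T, if c < D.s (0, x) then (-D.g (0, x)).im else 0) =
      -∫ x in -D.T..D.T, if c < D.s (0, x) then (D.g (0, x)).im else 0 := by
    rw [← intervalIntegral.integral_neg]
    congr 1; funext x; split_ifs <;> simp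
  linarith

theorem swap {ψ : ℝ → ℝ} (hψ : Continuous ψ) {c S' : ℝ} (h0 : ∀ x ≤ c, ψ x = 0) (hc : c ≤ S')
    (hS : D.S ≤ S') (t : ℝ) :
    ∫ ξ in Ioc (-D.T) D.T, (∫ σ in c..D.s (t, ξ), ψ σ) * (D.g (t, ξ)).im =
      -∫ σ in c..S', ψ σ * D.A σ t := by
  have e1 : ∀ x ≤ S', ∫ σ in c..x, ψ σ = ∫ σ in Ioc c S', if σ < x then ψ σ else 0 := by
    intro x hx
    have e0 : (∫ σ in Ioc c S', if σ < x then ψ σ else 0) = ∫ σ in Ioc c S' ∩ Iio x, ψ σ := by
      rw [← setIntegral_indicator measurableSet_Iio]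
      refine integral_congr_ae (Eventually.of_forall fun ξ => ?_)
      simp [indicator_apply]
    rw [e0]
    rcases le_total x c with h | h
    · have : Ioc c S' ∩ Iio x = ∅ := by
        ext y; simp only [mem_inter_iff, mem_Ioc, mem_Iio, mem_empty_iff_false, iff_false]
        rintro ⟨⟨h1, _⟩, h2⟩; linarith
      rw [this, Measure.restrict_empty, integral_zero_measure,
        intervalIntegral.integral_congr (g := fun _ => 0)]
      · simp
      · intro y hy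
        rw [uIcc_of_ge h] at hy
        exact h0 y hy.2
    · have : Ioc c S' ∩ Iio x = Ioo c x := by
        ext y; simp only [mem_inter_iff, mem_Ioc, mem_Iio, mem_Ioo]
        constructor
        · rintro ⟨⟨h1, _⟩, h2⟩; exact ⟨h1, h2⟩
        · rintro ⟨h1, h2⟩; exact ⟨⟨h1, by linarith⟩, h2⟩
      rw [this, intervalIntegral.integral_of_le h, integral_Ioc_eq_integral_Ioo]
  have e2 : ∫ ξ in Ioc (-D.T) D.T, (∫ σ in c..D.s (t, ξ), ψ σ) * (D.g (t, ξ)).im =
      ∫ ξ in Ioc (-D.T) D.T, ∫ σ in Ioc c S',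
        if σ < D.s (t, ξ) then ψ σ * (D.g (t, ξ)).im else 0 := by
    refine setIntegral_congr_fun measurableSet_Ioc fun ξ hξ => ?_
    beta_reduce
    rw [e1 _ ((D.hS t ξ (Ioc_subset_Icc_self hξ)).trans hS), ← integral_mul_const]
    congr 1; funext σ; split_ifs <;> simp
  rw [e2, integral_integral_swap, intervalIntegral.integral_of_le hc, ← integral_neg]
  · congr 1; funext σ
    rw [A_eq, mul_neg, neg_neg, ← integral_const_mul]
    congr 1; funext ξ; split_ifs <;> simp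
  · rw [Measure.prod_restrict, ← Measure.volume_eq_prod]
    have c1 : Continuous fun p : ℝ × ℝ => ψ p.2 * (D.g (t, p.1)).im :=
      (hψ.comp continuous_snd).mul (Complex.continuous_im.comp ((D.cg1 t).comp continuous_fst))
    have m1 : MeasurableSet {p : ℝ × ℝ | p.2 < D.s (t, p.1)} :=
      (isOpen_lt continuous_snd ((D.cs1 t).comp continuous_fst)).measurableSet
    refine ((iQ c1 (-D.T) D.T c S').indicator m1).congr (Eventually.of_forall fun p => ?_)
    simp [indicator_apply, Function.uncurry]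

theorem ID0 {ψ : ℝ → ℝ} (hψ : Continuous ψ) {c S' : ℝ} (hac : D.a ≤ c) (h0 : ∀ x ≤ c, ψ x = 0)
    (hc : c ≤ S') (hS : D.S ≤ S') {t1 t2 : ℝ} (h1 : 0 ≤ t1) (h12 : t1 ≤ t2) (h2 : t2 ≤ D.τ) :
    ∫ p in Ioc t1 t2 ×ˢ Ioc (-D.T) D.T, ψ (D.s p) * ‖D.g p‖ ^ 2 =
      ∫ σ in c..S', ψ σ * (D.A σ t2 - D.A σ t1) := by
  rw [D.hID ψ (fun x => ∫ σ in c..x, ψ σ) hψ (fun x => (hψ.integral_hasStrictDerivAt c x).hasDerivAt)
    ?_ t1 t2 h1 h12 h2, D.swap hψ h0 hc hS, D.swap hψ h0 hc hS]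
  · simp only [mul_sub]
    rw [intervalIntegral.integral_sub ((hψ.fun_mul (D.A_cont1 t2)).intervalIntegrable _ _)
      ((hψ.fun_mul (D.A_cont1 t1)).intervalIntegrable _ _)]
    ring
  · intro x hx
    rw [intervalIntegral.integral_congr (g := fun _ => 0)]
    · simp
    · intro y hy
      rw [uIcc_of_ge (hx.trans hac)] at hy
      exact h0 y hy.2

noncomputable def chi (c : ℝ) (n : ℕ) (x : ℝ) : ℝ := min 1 (max 0 (n * (x - c)))

theorem chi_cont (c : ℝ) (n : ℕ) : Continuous (chi c n) := by unfold chi; fun_prop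

theorem chi_abs (c : ℝ) (n : ℕ) (x : ℝ) : |chi c n x| ≤ 1 := by
  unfold chi
  rw [abs_of_nonneg (le_min zero_le_one (le_max_left _ _))]
  exact min_le_left _ _

theorem chi_zero (c : ℝ) (n : ℕ) {x : ℝ} (hx : x ≤ c) : chi c n x = 0 := by
  unfold chi
  rw [max_eq_left (mul_nonpos_of_nonneg_of_nonpos (Nat.cast_nonneg n) (by linarith))]
  simp

theorem chi_lim (c x : ℝ) : Tendsto (fun n => chi c n x) atTop (𝓝 (if c < x then 1 else 0)) := by
  split_ifs with h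
  · refine tendsto_const_nhds.congr' ?_
    have : Tendsto (fun n : ℕ => (n:ℝ) * (x - c)) atTop atTop :=
      tendsto_natCast_atTop_atTop.atTop_mul_const (by linarith)
    filter_upwards [this.eventually_ge_atTop 1] with n hn
    unfold chi
    rw [max_eq_right (by linarith), min_eq_left hn]
  · simp only [chi_zero c _ (not_lt.1 h)]
    exact tendsto_const_nhds

theorem ID1 {φ : ℝ → ℝ} (hφ : Continuous φ) {c S' : ℝ} (hac : D.a ≤ c)
    (hc : c ≤ S') (hS : D.S ≤ S') {t1 t2 : ℝ} (h1 : 0 ≤ t1) (h12 : t1 ≤ t2) (h2 : t2 ≤ D.τ) :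
    ∫ p in D.R t1 t2 c, φ (D.s p) * ‖D.g p‖ ^ 2 =
      ∫ σ in c..S', φ σ * (D.A σ t2 - D.A σ t1) := by
  have e : ∀ n : ℕ, ∫ p in Ioc t1 t2 ×ˢ Ioc (-D.T) D.T, chi c n (D.s p) * (φ (D.s p) * ‖D.g p‖ ^ 2) =
      ∫ σ in Ioc c S', chi c n σ * (φ σ * (D.A σ t2 - D.A σ t1)) := by
    intro n
    have := D.ID0 (ψ := fun x => chi c n x * φ x) ((chi_cont c n).mul hφ) hac
      (fun x hx => by rw [chi_zero c n hx, zero_mul]) hc hS h1 h12 h2
    rw [intervalIntegral.integral_of_le hc] at this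
    simpa only [mul_assoc] using this
  have c1 : Continuous fun p => φ (D.s p) * ‖D.g p‖ ^ 2 := (hφ.comp D.cs).mul (D.cg.norm.pow 2)
  have c2 : Continuous fun σ => φ σ * (D.A σ t2 - D.A σ t1) :=
    hφ.mul ((D.A_cont1 t2).sub (D.A_cont1 t1))
  have l1 := tendsto_integral_of_dominated_convergence (μ := volume.restrict (Ioc t1 t2 ×ˢ Ioc (-D.T) D.T))
    (F := fun n p => chi c n (D.s p) * (φ (D.s p) * ‖D.g p‖ ^ 2))
    (f := fun p => (if c < D.s p then 1 else 0) * (φ (D.s p) * ‖D.g p‖ ^ 2))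
    (fun p => ‖φ (D.s p) * ‖D.g p‖ ^ 2‖)
    (fun n => (((chi_cont c n).comp D.cs).mul c1).aestronglyMeasurable) (iQ c1.norm _ _ _ _)
    (fun n => Eventually.of_forall fun p => by
      rw [norm_mul]; exact mul_le_of_le_one_left (norm_nonneg _) (chi_abs _ _ _))
    (Eventually.of_forall fun p => (chi_lim c _).mul_const _)
  have l2 := tendsto_integral_of_dominated_convergence (μ := volume.restrict (Ioc c S'))
    (F := fun n σ => chi c n σ * (φ σ * (D.A σ t2 - D.A σ t1)))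
    (f := fun σ => (if c < σ then 1 else 0) * (φ σ * (D.A σ t2 - D.A σ t1)))
    (fun σ => ‖φ σ * (D.A σ t2 - D.A σ t1)‖)
    (fun n => ((chi_cont c n).mul c2).aestronglyMeasurable)
    (c2.norm.integrableOn_Ioc)
    (fun n => Eventually.of_forall fun p => by
      rw [norm_mul]; exact mul_le_of_le_one_left (norm_nonneg _) (chi_abs _ _ _))
    (Eventually.of_forall fun p => (chi_lim c _).mul_const _)
  simp only [e] at l1
  have l3 := tendsto_nhds_unique l1 l2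
  rw [R, ← setIntegral_indicator (D.mR0 c), intervalIntegral.integral_of_le hc]
  convert l3 using 1
  · congr 1; funext p; simp [indicator_apply]
  · refine setIntegral_congr_fun measurableSet_Ioc fun σ hσ => ?_
    simp [hσ.1]

end Dat

end Pool.Agent.H.MP_281b2c_an
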