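import Pool.Agent.H.MP_281b2c_an.B

set_option autoImplicit false
open Set Real MeasureTheory Filter Topology

namespace Pool.Agent.H.MP_281b2c_an

noncomputable def cl (x : ℝ) : ℝ := min (max (x / 2) 0) π

theorem cl_cont : Continuous cl := by unfold cl; fun_prop

theorem cl_mem (x : ℝ) : cl x ∈ Icc 0 π :=
  ⟨le_min (le_max_right _ _) pi_pos.le, min_le_right _ _⟩

theorem cl_zero : cl 0 = 0 := by simp [cl, pi_pos.le]

theorem cl_mono : Monotone cl := fun _ _ h =>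
  min_le_min (max_le_max (by linarith) le_rfl) le_rfl

theorem cl_lip (x y : ℝ) : |cl x - cl y| ≤ |(x - y) / 2| := by
  unfold cl
  refine (abs_min_sub_min_le_max _ _ _ _).trans ?_
  rw [sub_self, abs_zero, max_eq_left (abs_nonneg _), sub_div]
  exact abs_max_sub_max_le_abs _ _ _

noncomputable def rr (η : ℝ) (p : ℝ × ℝ) : ℝ := (√(mm η p.1 p.2))⁻¹

theorem rr_cont {η : ℝ} (hη : 0 < η) : Continuous (rr η) :=
  (mm_cont η).sqrt.inv₀ fun p => (sqrt_pos.2 (mm_pos hη p.1 p.2)).ne'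

theorem rr_nonneg (η : ℝ) (p : ℝ × ℝ) : 0 ≤ rr η p := inv_nonneg.2 (sqrt_nonneg _)

theorem alg3 {d e I J K : ℝ} (hK : 0 ≤ K) (hI : 2 * d ≤ I) (hd : 0 ≤ d) (hJ : J = 2 * e)
    (h : d * I + e * J ≤ √(d ^ 2 + e ^ 2) * K) : 2 * √(d ^ 2 + e ^ 2) ≤ K := by
  have h1 : √(d ^ 2 + e ^ 2) ^ 2 = d ^ 2 + e ^ 2 := sq_sqrt (by positivity)
  rcases (sqrt_nonneg (d ^ 2 + e ^ 2)).eq_or_lt with h0 | h0
  · rw [← h0]; linarith
  · refine le_of_mul_le_mul_left ?_ h0
    rw [hJ] at h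
    nlinarith [mul_le_mul_of_nonneg_left hI hd]

theorem alg4 (d e : ℝ) (z : ℂ) : d * |z.re| + e * (-z.im) ≤ √(d ^ 2 + e ^ 2) * ‖z‖ := by
  refine (le_abs_self _).trans (le_of_sq_le_sq ?_ (by positivity))
  rw [sq_abs, mul_pow, sq_sqrt (by positivity), Complex.sq_norm, Complex.normSq_apply]
  have := sq_abs z.re
  nlinarith [sq_nonneg (d * z.im + e * |z.re|)]

namespace Dat

variable (D : Dat)

theorem E_mono (t : ℝ) {x y : ℝ} (h : x ≤ y) : D.E t y ⊆ D.E t x :=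
  fun _ hξ => ⟨hξ.1, lt_of_le_of_lt h hξ.2⟩

theorem cross (t : ℝ) {x y ξ0 : ℝ} (hx : D.a ≤ x) (hxy : x ≤ y) (h0 : ξ0 ∈ Icc (-D.T) D.T)
    (hy : y ≤ D.s (t, ξ0)) : 2 * (y - x) ≤ ∫ ξ in D.E t x \ D.E t y, |(D.g (t, ξ)).re| := by
  obtain ⟨k, hk⟩ : ∃ k : ℝ → ℝ, k = fun ξ => min y (max x (D.s (t, ξ))) := ⟨_, rfl⟩
  obtain ⟨U, hU⟩ : ∃ U : Set ℝ, U = {ξ | x < D.s (t, ξ)} \ {ξ | y < D.s (t, ξ)} := ⟨_, rfl⟩
  have mU : MeasurableSet U := hU ▸ (D.mE0 t x).diff (D.mE0 t y)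
  have cr : Continuous fun ξ => (D.g (t, ξ)).re := Complex.continuous_re.comp (D.cg1 t)
  have ck : Continuous k := by rw [hk]; have := D.cs1 t; fun_prop
  have ii : ∀ u v, IntervalIntegrable (U.indicator fun ξ => (D.g (t, ξ)).re) volume u v :=
    fun u v => ⟨(cr.intervalIntegrable u v).1.indicator mU, (cr.intervalIntegrable u v).2.indicator mU⟩
  have ftc : ∀ u v, -D.T ≤ u → u ≤ v → v ≤ D.T →
      ∫ ξ in u..v, U.indicator (fun ξ => (D.g (t, ξ)).re) ξ = k v - k u := by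
    intro u v hu huv hv
    refine integral_eq_of_hasDerivAt_off_countable_of_le k _ huv ((D.hZ t x).union (D.hZ t y))
      ck.continuousOn ?_ (ii u v)
    rintro ξ ⟨hξ, hn⟩
    have hI : ξ ∈ Icc (-D.T) D.T := ⟨by linarith [hξ.1], by linarith [hξ.2]⟩
    have n1 : D.s (t, ξ) ≠ x := fun h => hn (Or.inl ⟨hI, h⟩)
    have n2 : D.s (t, ξ) ≠ y := fun h => hn (Or.inr ⟨hI, h⟩)
    rcases lt_or_gt_of_ne n1 with h1 | h1
    · rw [indicator_of_notMem (by rw [hU]; exact fun h => absurd h.1 h1.le.not_gt)]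
      refine (hasDerivAt_const ξ x).congr_of_eventuallyEq ?_
      filter_upwards [(isOpen_lt (D.cs1 t) continuous_const).mem_nhds h1] with z hz
      rw [hk]; beta_reduce
      rw [max_eq_left (le_of_lt hz), min_eq_right hxy]
    rcases lt_or_gt_of_ne n2 with h2 | h2
    · rw [indicator_of_mem (by rw [hU]; exact ⟨h1, h2.le.not_gt⟩)]
      refine (D.hd t ξ).congr_of_eventuallyEq ?_
      filter_upwards [(isOpen_lt (D.cs1 t) continuous_const).mem_nhds h2,
        (isOpen_lt continuous_const (D.cs1 t)).mem_nhds h1] with z hz hz'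
      rw [hk]; beta_reduce
      rw [max_eq_right (le_of_lt hz'), min_eq_right (le_of_lt hz)]
    · rw [indicator_of_notMem (by rw [hU]; exact fun h => h.2 h2)]
      refine (hasDerivAt_const ξ y).congr_of_eventuallyEq ?_
      filter_upwards [(isOpen_lt continuous_const (D.cs1 t)).mem_nhds h2] with z hz
      rw [hk]; beta_reduce
      rw [min_eq_left ((le_of_lt hz).trans (le_max_right _ _))]
  have k1 : k (-D.T) = x := by
    rw [hk]; beta_reduce; rw [max_eq_left ((D.hl t).trans hx), min_eq_right hxy]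
  have k2 : k D.T = x := by
    rw [hk]; beta_reduce; rw [max_eq_left ((D.hr t).trans hx), min_eq_right hxy]
  have k3 : k ξ0 = y := by
    rw [hk]; beta_reduce; rw [min_eq_left (hy.trans (le_max_right _ _))]
  have f1 := ftc _ _ le_rfl h0.1 h0.2
  have f2 := ftc _ _ h0.1 h0.2 le_rfl
  have g1 := intervalIntegral.abs_integral_le_integral_abs
    (f := U.indicator fun ξ => (D.g (t, ξ)).re) (μ := volume) h0.1
  have g2 := intervalIntegral.abs_integral_le_integral_abs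
    (f := U.indicator fun ξ => (D.g (t, ξ)).re) (μ := volume) h0.2
  have g3 := intervalIntegral.integral_add_adjacent_intervals (ii (-D.T) ξ0).abs (ii ξ0 D.T).abs
  rw [f1, k1, k3] at g1
  rw [f2, k2, k3] at g2
  have g4 : ∫ ξ in D.E t x \ D.E t y, |(D.g (t, ξ)).re| =
      ∫ ξ in -D.T..D.T, |U.indicator (fun ξ => (D.g (t, ξ)).re) ξ| := by
    have : D.E t x \ D.E t y = Ioc (-D.T) D.T ∩ U := by
      rw [hU]; ext ξ; simp only [E, mem_diff, mem_inter_iff]; tauto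
    rw [this, ← setIntegral_indicator mU, intervalIntegral.integral_of_le (by linarith [D.hT])]
    congr 1; funext ξ
    by_cases h : ξ ∈ U <;> simp [h]
  rw [g4]
  have := le_abs_self (y - x)
  have := neg_abs_le (x - y)
  linarith

theorem len (t : ℝ) {x y ξ0 : ℝ} (hx : D.a ≤ x) (hxy : x ≤ y) (h0 : ξ0 ∈ Icc (-D.T) D.T)
    (hy : y ≤ D.s (t, ξ0)) :
    2 * √((y - x) ^ 2 + ((D.A x t - D.A y t) / 2) ^ 2) ≤ ∫ ξ in D.E t x \ D.E t y, ‖D.g (t, ξ)‖ := by
  have cr : Continuous fun ξ => |(D.g (t, ξ)).re| := (Complex.continuous_re.comp (D.cg1 t)).abs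
  have ci : Continuous fun ξ => (D.g (t, ξ)).im := Complex.continuous_im.comp (D.cg1 t)
  have cn : Continuous fun ξ => ‖D.g (t, ξ)‖ := (D.cg1 t).norm
  have ir := (D.iE cr t x).mono_set (sdiff_subset (t := D.E t y))
  have ii := (D.iE ci.fun_neg t x).mono_set (sdiff_subset (t := D.E t y))
  have iN := (D.iE cn t x).mono_set (sdiff_subset (t := D.E t y))
  refine alg3 (J := ∫ ξ in D.E t x \ D.E t y, -(D.g (t, ξ)).im)
    (integral_nonneg fun _ => norm_nonneg _) (D.cross t hx hxy h0 hy) (by linarith) ?_ ?_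
  · rw [integral_neg, setIntegral_sdiff (D.mE t y) (D.iE ci t x) (D.E_mono t hxy), A, A]; ring
  · rw [← integral_const_mul, ← integral_const_mul, ← integral_const_mul,
      ← integral_add (ir.const_mul _) (ii.const_mul _)]
    exact integral_mono ((ir.const_mul _).add (ii.const_mul _)) (iN.const_mul _)
      fun ξ => alg4 _ _ _

theorem line {η : ℝ} (hη : 0 < η) (t : ℝ) :
    2 * (arcosh (2 * exp (-D.a) - 1) - arcosh (1 + η + η ^ 2 * exp (-D.a) / 2)) ≤
      ∫ ξ in D.E t D.a, rr η (D.s (t, ξ), cl (D.A (D.s (t, ξ)) t)) * ‖D.g (t, ξ)‖ := by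
  obtain ⟨l, hl⟩ : ∃ l, l = η ^ 2 * exp (-D.a) / 2 := ⟨_, rfl⟩
  have hl0 : 0 < l := by rw [hl]; positivity
  obtain ⟨ξ0, h0, hm⟩ := (isCompact_Icc (a := -D.T) (b := D.T)).exists_isMaxOn
    (nonempty_Icc.2 (by linarith [D.hT])) (D.cs1 t).continuousOn
  obtain ⟨σ1, hσ1⟩ : ∃ x, x = D.s (t, ξ0) := ⟨_, rfl⟩
  have h1 : 0 ≤ σ1 := by
    obtain ⟨ξ, hξ, h⟩ := D.hmax t
    rw [hσ1]; exact h.trans (hm hξ)
  have hE : D.E t σ1 = ∅ := by
    ext ξ; simp only [E, mem_inter_iff, mem_ofPred_eq, mem_empty_iff_false, iff_false]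
    rintro ⟨a, b⟩
    rw [hσ1] at b
    exact absurd (hm (Ioc_subset_Icc_self a)) b.not_ge
  have cθ : Continuous fun σ => cl (D.A σ t) := cl_cont.comp (D.A_cont1 t)
  have cn : Continuous fun ξ => ‖D.g (t, ξ)‖ := (D.cg1 t).norm
  have cρ : Continuous fun ξ => rr η (D.s (t, ξ), cl (D.A (D.s (t, ξ)) t)) * ‖D.g (t, ξ)‖ :=
    ((rr_cont hη).comp ((D.cs1 t).prodMk (cθ.comp (D.cs1 t)))).mul cn
  have key := step (fun σ => 2 * YY η l σ (cl (D.A σ t)) -
      ∫ ξ in D.E t σ, rr η (D.s (t, ξ), cl (D.A (D.s (t, ξ)) t)) * ‖D.g (t, ξ)‖)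
    (fun σ => -∫ ξ in D.E t σ, ‖D.g (t, ξ)‖) (a := D.a) (b := σ1) (by linarith [D.ha]) ?_
  · rw [hE] at key
    have hA : D.A σ1 t = 0 := by rw [A, hE]; simp
    rw [hA, cl_zero] at key
    simp only [Measure.restrict_empty, integral_zero_measure, sub_zero] at key
    have y1 : YY η l σ1 0 ≤ arcosh (1 + η + l) := by
      have q1 := q_ge η σ1 0
      refine (arcosh_le_arcosh (by linarith) (by linarith)).2 ?_
      have e1 : 1 ≤ exp σ1 := one_le_exp h1
      have e2 : mm η σ1 0 ≤ exp σ1 - 1 + η := by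
        apply le_of_sq_le_sq _ (by linarith)
        rw [mm_sq, cos_zero]; nlinarith
      have e3 : (1 + mm η σ1 0) * exp (-σ1) ≤ 1 + η := by
        rw [exp_neg, ← div_eq_mul_inv, div_le_iff₀ (exp_pos _)]; nlinarith
      linarith
    have y2 : arcosh (2 * exp (-D.a) - 1) ≤ YY η l D.a (cl (D.A D.a t)) := by
      have q1 := q_ge η D.a (cl (D.A D.a t))
      have e1 : 1 ≤ exp (-D.a) := one_le_exp (by linarith [D.ha])
      refine (arcosh_le_arcosh (by linarith) (by linarith)).2 ?_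
      have e2 := mm_ge_abs η D.a (cl (D.A D.a t))
      have e3 := neg_abs_le (exp D.a - 1)
      have e4 : exp D.a * exp (-D.a) = 1 := by rw [← exp_add]; simp
      nlinarith [mul_le_mul_of_nonneg_right (show 2 - exp D.a ≤ 1 + mm η D.a (cl (D.A D.a t)) by
        linarith) (exp_pos (-D.a)).le]
    rw [← hl]
    linarith
  intro ε hε
  obtain ⟨δ1, hδ1, H1⟩ := Metric.uniformContinuousOn_iff.1
    (((isCompact_Icc (a := D.a) (b := σ1)).prod (isCompact_Icc (a := 0) (b := π))).uniformContinuousOn_of_continuous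
      (rr_cont hη).continuousOn) (ε / 2) (by positivity)
  obtain ⟨δ2, hδ2, H2⟩ := Metric.uniformContinuousOn_iff.1
    ((isCompact_Icc (a := D.a) (b := σ1)).uniformContinuousOn_of_continuous cθ.continuousOn) δ1 hδ1
  refine ⟨min δ1 δ2, lt_min hδ1 hδ2, fun x y hx hxy hy hd => ?_⟩
  have d1 : y - x < δ1 := hd.trans_le (min_le_left _ _)
  have d2 : y - x < δ2 := hd.trans_le (min_le_right _ _)
  have mx : x ∈ Icc D.a σ1 := ⟨hx, by linarith⟩
  obtain ⟨C, hC⟩ : ∃ C, C = rr η (x, cl (D.A x t)) := ⟨_, rfl⟩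
  have hC0 : 0 ≤ C := hC ▸ rr_nonneg _ _
  have near : ∀ σ θ, x ≤ σ → σ ≤ y → θ ∈ Icc 0 π → |θ - cl (D.A x t)| < δ1 →
      |rr η (σ, θ) - C| < ε / 2 := by
    intro σ θ a1 a2 a3 a4
    rw [hC, ← Real.dist_eq]
    refine H1 _ ⟨⟨by linarith, by linarith⟩, a3⟩ _ ⟨mx, cl_mem _⟩ ?_
    rw [Prod.dist_eq, max_lt_iff, Real.dist_eq, Real.dist_eq]
    exact ⟨by rw [abs_of_nonneg (by linarith)]; linarith, a4⟩
  have nθ : ∀ σ, x ≤ σ → σ ≤ y → |cl (D.A σ t) - cl (D.A x t)| < δ1 := by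
    intro σ a1 a2
    rw [← Real.dist_eq]
    refine H2 _ ⟨by linarith, by linarith⟩ _ mx ?_
    rw [Real.dist_eq, abs_of_nonneg (by linarith)]; linarith
  have L1 := lip (η := η) (a := D.a) hη (σ1 := x) (σ2 := y) (θ1 := cl (D.A x t)) (θ2 := cl (D.A y t))
    (C := C + ε / 2) hx (by linarith) (by
      intro u hu
      have b1 := cl_mem (D.A x t)
      have b2 := cl_mem (D.A y t)
      have := near (x + u * (y - x)) (cl (D.A x t) + u * (cl (D.A y t) - cl (D.A x t)))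
        (by nlinarith [hu.1]) (by nlinarith [hu.2])
        ⟨by nlinarith [hu.1, hu.2, b1.1, b2.1], by nlinarith [hu.1, hu.2, b1.2, b2.2]⟩ (by
          rw [add_sub_cancel_left, abs_mul, abs_of_nonneg hu.1]
          exact lt_of_le_of_lt (mul_le_of_le_one_left (abs_nonneg _) hu.2) (nθ y hxy le_rfl))
      have h3 := (abs_lt.1 this).2
      unfold rr at h3
      linarith)
  rw [← hl] at L1
  have L2 : √((y - x) ^ 2 + (cl (D.A y t) - cl (D.A x t)) ^ 2) ≤
      √((y - x) ^ 2 + ((D.A x t - D.A y t) / 2) ^ 2) := by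
    apply sqrt_le_sqrt
    have := sq_le_sq.2 (cl_lip (D.A x t) (D.A y t))
    nlinarith
  have L3 := D.len t hx hxy h0 (hσ1 ▸ hy)
  have iN := (D.iE cn t x).mono_set (sdiff_subset (t := D.E t y))
  have iρ := (D.iE cρ t x).mono_set (sdiff_subset (t := D.E t y))
  have L4 : ∫ ξ in D.E t x \ D.E t y, (C - ε / 2) * ‖D.g (t, ξ)‖ ≤
      ∫ ξ in D.E t x \ D.E t y, rr η (D.s (t, ξ), cl (D.A (D.s (t, ξ)) t)) * ‖D.g (t, ξ)‖ := by
    refine setIntegral_mono_on (iN.const_mul _) iρ ((D.mE t x).diff (D.mE t y)) fun ξ hξ => ?_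
    have a1 : x ≤ D.s (t, ξ) := le_of_lt hξ.1.2
    have a2 : D.s (t, ξ) ≤ y := not_lt.1 fun h => hξ.2 ⟨hξ.1.1, h⟩
    have := (abs_lt.1 (near _ _ a1 a2 (cl_mem _) (nθ _ a1 a2))).1
    exact mul_le_mul_of_nonneg_right (by linarith) (norm_nonneg _)
  rw [integral_const_mul, setIntegral_sdiff (D.mE t y) (D.iE cρ t x) (D.E_mono t hxy)] at L4
  rw [setIntegral_sdiff (D.mE t y) (D.iE cn t x) (D.E_mono t hxy)] at L3 L4
  have L5 := mul_le_mul_of_nonneg_left (le_trans (mul_le_mul_of_nonneg_left L2 zero_le_two) L3)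
    (show 0 ≤ C + ε / 2 by positivity)
  beta_reduce
  linarith

end Dat

end Pool.Agent.H.MP_281b2c_an
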