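import Pool.Agent.H.MP_281b2c_an.C

set_option autoImplicit false
open Set Real MeasureTheory Filter Topology

namespace Pool.Agent.H.MP_281b2c_an

noncomputable def hh (η σ x : ℝ) : ℝ := (mm η σ (cl x))⁻¹

noncomputable def HH (η σ x : ℝ) : ℝ := ∫ y in (0:ℝ)..x, hh η σ y

theorem hh_cont {η : ℝ} (hη : 0 < η) : Continuous fun p : ℝ × ℝ => hh η p.1 p.2 :=
  ((mm_cont η).comp (f := fun p : ℝ × ℝ => (p.1, cl p.2))
    (continuous_fst.prodMk (cl_cont.comp continuous_snd))).inv₀ fun p => (mm_pos hη _ _).ne'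

theorem hh_cont1 {η : ℝ} (hη : 0 < η) (σ : ℝ) : Continuous (hh η σ) :=
  (hh_cont hη).comp (f := fun y => (σ, y)) (by fun_prop)

theorem hh_anti {η : ℝ} (hη : 0 < η) (σ : ℝ) : Antitone (hh η σ) := fun x y h =>
  inv_anti₀ (mm_pos hη _ _) (mm_mono η σ (cl_mem x).1 (cl_mono h) (cl_mem y).2)

theorem HH_conc {η : ℝ} (hη : 0 < η) (σ x y : ℝ) :
    hh η σ y * (y - x) ≤ HH η σ y - HH η σ x := by
  have c := hh_cont1 hη σ
  rw [HH, HH, intervalIntegral.integral_interval_sub_left (c.intervalIntegrable _ _)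
    (c.intervalIntegrable _ _)]
  rcases le_total x y with h | h
  · have := intervalIntegral.integral_mono_on h (intervalIntegrable_const (c := hh η σ y) (μ := volume))
      (c.intervalIntegrable _ _) (fun z hz => hh_anti hη σ hz.2)
    simp only [intervalIntegral.integral_const, smul_eq_mul] at this
    linarith
  · have := intervalIntegral.integral_mono_on h (c.intervalIntegrable _ _)
      (intervalIntegrable_const (c := hh η σ y) (μ := volume)) (fun z hz => hh_anti hη σ hz.1)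
    simp only [intervalIntegral.integral_const, smul_eq_mul] at this
    rw [intervalIntegral.integral_symm]
    linarith

theorem cl_two_pi : cl (2 * π) = π := by
  unfold cl
  rw [show 2 * π / 2 = π by ring, max_eq_left pi_pos.le, min_self]

theorem HH_two_pi (η σ : ℝ) : HH η σ (2 * π) = 2 * ∫ θ in (0:ℝ)..π, (mm η σ θ)⁻¹ := by
  have := intervalIntegral.integral_comp_div (a := 0) (b := 2 * π) (fun θ => (mm η σ θ)⁻¹)
    (c := 2) two_ne_zero
  rw [zero_div, show 2 * π / 2 = π by ring, smul_eq_mul] at this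
  rw [← this, HH]
  refine intervalIntegral.integral_congr fun y hy => ?_
  rw [uIcc_of_le (by positivity)] at hy
  unfold hh cl
  rw [max_eq_left (by linarith [hy.1]), min_eq_left (by linarith [hy.2])]

namespace Dat

variable (D : Dat)

theorem R_diff {t1 t2 : ℝ} (h1 : 0 ≤ t1) (h12 : t1 ≤ t2) {h : ℝ × ℝ → ℝ} (hh : Continuous h) :
    (∫ p in D.R 0 t2 D.a, h p) - ∫ p in D.R 0 t1 D.a, h p = ∫ p in D.R t1 t2 D.a, h p := by
  rw [← setIntegral_sdiff (D.mR _ _ _) (D.iR hh _ _ _)]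
  · congr 2
    ext p
    simp only [R, mem_diff, mem_inter_iff, mem_prod, mem_Ioc, mem_ofPred_eq]
    constructor
    · rintro ⟨⟨⟨⟨a, b⟩, c⟩, d⟩, e⟩
      exact ⟨⟨⟨not_le.1 fun f => e ⟨⟨⟨a, f⟩, c⟩, d⟩, b⟩, c⟩, d⟩
    · rintro ⟨⟨⟨a, b⟩, c⟩, d⟩
      exact ⟨⟨⟨⟨by linarith, b⟩, c⟩, d⟩, fun e => absurd e.1.1.2 a.not_ge⟩
  · rintro p ⟨⟨⟨a, b⟩, c⟩, d⟩
    exact ⟨⟨⟨a, by linarith⟩, c⟩, d⟩

theorem aS : D.a ≤ D.S := by linarith [D.ha, D.hS0]

theorem HA_cont {η : ℝ} (hη : 0 < η) (t : ℝ) : Continuous fun σ => HH η σ (D.A σ t) :=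
  intervalIntegral.continuous_parametric_intervalIntegral_of_continuous (f := hh η)
    (hh_cont hη) (D.A_cont1 t)

theorem u_cont {η : ℝ} (hη : 0 < η) : Continuous fun p : ℝ × ℝ => hh η p.1 (D.A p.1 p.2) :=
  (hh_cont hη).comp (f := fun p : ℝ × ℝ => (p.1, D.A p.1 p.2)) (continuous_fst.prodMk D.A_cont)

theorem area {η : ℝ} (hη : 0 < η) :
    ∫ p in D.R 0 D.τ D.a, hh η (D.s p) (D.A (D.s p) p.1) * ‖D.g p‖ ^ 2 ≤
      ∫ σ in D.a..D.S, HH η σ (D.A σ D.τ) := by
  have cu := D.u_cont hη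
  have cn : Continuous fun p => ‖D.g p‖ ^ 2 := D.cg.norm.pow 2
  have c1 : Continuous fun p => hh η (D.s p) (D.A (D.s p) p.1) * ‖D.g p‖ ^ 2 :=
    (cu.comp (f := fun p : ℝ × ℝ => (D.s p, p.1)) (D.cs.prodMk continuous_fst)).mul cn
  have key := step (fun t => (∫ σ in D.a..D.S, HH η σ (D.A σ t)) -
      ∫ p in D.R 0 t D.a, hh η (D.s p) (D.A (D.s p) p.1) * ‖D.g p‖ ^ 2)
    (fun t => ∫ p in D.R 0 t D.a, ‖D.g p‖ ^ 2) D.hτ.le ?_
  · have : D.R 0 0 D.a = ∅ := by simp [R]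
    simp only [this, A_zero, HH, intervalIntegral.integral_same, intervalIntegral.integral_zero,
      Measure.restrict_empty, integral_zero_measure] at key
    simp only [HH]
    linarith
  intro ε hε
  obtain ⟨δ, hδ, H⟩ := Metric.uniformContinuousOn_iff.1
    (((isCompact_Icc (a := D.a) (b := D.S)).prod (isCompact_Icc (a := 0) (b := D.τ))).uniformContinuousOn_of_continuous
      cu.continuousOn) ε hε
  refine ⟨δ, hδ, fun x y hx hxy hy hd => ?_⟩
  have cφ : Continuous fun σ => hh η σ (D.A σ y) :=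
    cu.comp (f := fun σ => (σ, y)) (by fun_prop)
  have e1 := D.ID1 cφ le_rfl D.aS le_rfl hx hxy hy
  have e2 : ∫ σ in D.a..D.S, hh η σ (D.A σ y) * (D.A σ y - D.A σ x) ≤
      (∫ σ in D.a..D.S, HH η σ (D.A σ y)) - ∫ σ in D.a..D.S, HH η σ (D.A σ x) := by
    rw [← intervalIntegral.integral_sub ((D.HA_cont hη y).intervalIntegrable _ _)
      ((D.HA_cont hη x).intervalIntegrable _ _)]
    exact intervalIntegral.integral_mono_on D.aS
      ((cφ.mul ((D.A_cont1 y).sub (D.A_cont1 x))).intervalIntegrable _ _)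
      (((D.HA_cont hη y).sub (D.HA_cont hη x)).intervalIntegrable _ _)
      fun σ _ => HH_conc hη σ _ _
  have e3 := D.R_diff hx hxy c1
  have e4 := D.R_diff hx hxy cn
  have c2 : Continuous fun p => hh η (D.s p) (D.A (D.s p) y) * ‖D.g p‖ ^ 2 := (cφ.comp D.cs).mul cn
  have e5 : ∫ p in D.R x y D.a, hh η (D.s p) (D.A (D.s p) p.1) * ‖D.g p‖ ^ 2 ≤
      ∫ p in D.R x y D.a, (hh η (D.s p) (D.A (D.s p) y) * ‖D.g p‖ ^ 2 + ε * ‖D.g p‖ ^ 2) := by
    refine setIntegral_mono_on (D.iR c1 _ _ _) (D.iR (c2.add (continuous_const.mul cn)) _ _ _)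
      (D.mR _ _ _) fun p hp => ?_
    have m1 : D.s p ∈ Icc D.a D.S := ⟨le_of_lt hp.2, D.hS p.1 p.2 (Ioc_subset_Icc_self hp.1.2)⟩
    have := H (D.s p, p.1) ⟨m1, ⟨by linarith [hp.1.1.1], by linarith [hp.1.1.2]⟩⟩
      (D.s p, y) ⟨m1, ⟨by linarith, hy⟩⟩ (by
        rw [Prod.dist_eq, max_lt_iff, dist_self, Real.dist_eq, abs_sub_comm,
          abs_of_nonneg (by linarith [hp.1.1.2])]
        exact ⟨hδ, by linarith [hp.1.1.1]⟩)
    rw [Real.dist_eq] at this
    have h3 := (abs_lt.1 this).2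
    rw [← add_mul]
    exact mul_le_mul_of_nonneg_right (by linarith) (by positivity)
  rw [integral_add (D.iR c2 _ _ _) ((D.iR cn _ _ _).const_mul _), integral_const_mul] at e5
  beta_reduce
  rw [e4]
  linarith

theorem cum {b : ℝ} (hb : D.a ≤ b) (hbS : b ≤ D.S) :
    ∫ σ in D.a..b, exp σ ^ 2 * (D.A σ D.τ - 2 * π) ≤ 0 := by
  have ce : Continuous fun σ : ℝ => exp σ ^ 2 := by fun_prop
  have e1 := D.ID1 ce le_rfl D.aS le_rfl le_rfl D.hτ.le le_rfl
  have e2 := D.ID1 ce hb hbS le_rfl le_rfl D.hτ.le le_rfl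
  simp only [A_zero, sub_zero] at e1 e2
  have c1 : Continuous fun p => exp (D.s p) ^ 2 * ‖D.g p‖ ^ 2 := (ce.comp D.cs).mul (D.cg.norm.pow 2)
  have c2 : Continuous fun σ => exp σ ^ 2 * D.A σ D.τ := ce.mul (D.A_cont1 _)
  have e3 := setIntegral_sdiff (D.mR 0 D.τ b) (D.iR c1 0 D.τ D.a)
    (fun p hp => ⟨hp.1, lt_of_le_of_lt hb hp.2⟩)
  have e4 : D.R 0 D.τ D.a \ D.R 0 D.τ b =
      (Ioc 0 D.τ ×ˢ Ioc (-D.T) D.T) ∩ {p | D.a < D.s p ∧ D.s p ≤ b} := by
    ext p; simp only [R, mem_diff, mem_inter_iff, mem_ofPred_eq]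
    constructor
    · rintro ⟨⟨a, c⟩, d⟩; exact ⟨a, c, not_lt.1 fun e => d ⟨a, e⟩⟩
    · rintro ⟨a, c, d⟩; exact ⟨⟨a, c⟩, fun e => absurd e.2 d.not_gt⟩
  have e5 := D.hAI b hb
  rw [← e4, e3, e1, e2] at e5
  have e6 := intervalIntegral.integral_add_adjacent_intervals (μ := volume)
    (c2.intervalIntegrable D.a b) (c2.intervalIntegrable b D.S)
  have e7 : ∫ σ in D.a..b, exp σ ^ 2 * (2 * π) = π * exp b ^ 2 - π * exp D.a ^ 2 := by
    refine intervalIntegral.integral_eq_sub_of_hasDerivAt (f := fun σ => π * exp σ ^ 2) (fun σ _ => ?_)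
      ((ce.mul continuous_const).intervalIntegrable _ _)
    refine (((hasDerivAt_exp σ).fun_pow 2).const_mul π).congr_deriv ?_
    simp; ring
  simp only [mul_sub]
  rw [intervalIntegral.integral_sub (c2.intervalIntegrable _ _)
    ((ce.fun_mul continuous_const).intervalIntegrable _ _), e7]
  linarith

theorem abel {η : ℝ} (hη : 0 < η) :
    ∫ σ in D.a..D.S, hh η σ (2 * π) * (D.A σ D.τ - 2 * π) ≤ 0 := by
  obtain ⟨w, hw⟩ : ∃ w : ℝ → ℝ, w = fun σ => (mm η σ π * exp σ ^ 2)⁻¹ := ⟨_, rfl⟩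
  have wp : ∀ σ, 0 < mm η σ π * exp σ ^ 2 := fun σ => mul_pos (mm_pos hη _ _) (by positivity)
  have w1 : ContDiff ℝ 1 w := by
    rw [hw]
    refine ContDiff.inv (ContDiff.mul ?_ (by fun_prop)) fun σ => (wp σ).ne'
    unfold mm
    refine ContDiff.sqrt (by fun_prop) fun σ => ?_
    rw [← mm_sq]; exact (pow_pos (mm_pos hη _ _) 2).ne'
  have w2 : Antitone w := by
    intro x y h
    rw [hw]
    refine inv_anti₀ (wp x) (mul_le_mul ?_ (by gcongr) (by positivity) (mm_nonneg _ _ _))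
    unfold mm
    apply sqrt_le_sqrt
    have := exp_le_exp.2 h
    have := exp_pos x
    rw [cos_pi]; nlinarith
  have c2 : Continuous fun σ => exp σ ^ 2 * (D.A σ D.τ - 2 * π) :=
    (by fun_prop : Continuous fun σ : ℝ => exp σ ^ 2).mul ((D.A_cont1 _).sub continuous_const)
  have cw := w1.continuous_deriv le_rfl
  have ibp := intervalIntegral.integral_mul_deriv_eq_deriv_mul (a := D.a) (b := D.S) (u := w)
    (u' := deriv w) (v := fun b => ∫ σ in D.a..b, exp σ ^ 2 * (D.A σ D.τ - 2 * π))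
    (v' := fun σ => exp σ ^ 2 * (D.A σ D.τ - 2 * π))
    (fun x _ => (w1.differentiable one_ne_zero x).hasDerivAt)
    (fun x _ => (c2.integral_hasStrictDerivAt D.a x).hasDerivAt)
    (cw.intervalIntegrable _ _) (c2.intervalIntegrable _ _)
  have e1 : ∫ σ in D.a..D.S, hh η σ (2 * π) * (D.A σ D.τ - 2 * π) =
      ∫ σ in D.a..D.S, w σ * (exp σ ^ 2 * (D.A σ D.τ - 2 * π)) := by
    congr 1; funext σ
    rw [hw, hh, cl_two_pi]
    have := mm_pos hη σ π
    have := exp_pos σ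
    field_simp
  have e2 : 0 ≤ ∫ x in D.a..D.S, deriv w x * ∫ σ in D.a..x, exp σ ^ 2 * (D.A σ D.τ - 2 * π) :=
    intervalIntegral.integral_nonneg D.aS fun x hx =>
      mul_nonneg_of_nonpos_of_nonpos w2.deriv_nonpos (D.cum hx.1 hx.2)
  have e3 : w D.S * ∫ σ in D.a..D.S, exp σ ^ 2 * (D.A σ D.τ - 2 * π) ≤ 0 :=
    mul_nonpos_of_nonneg_of_nonpos (by rw [hw]; exact (inv_pos.2 (wp _)).le) (D.cum D.aS le_rfl)
  rw [e1, ibp, intervalIntegral.integral_same]
  linarith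

theorem core1 {η : ℝ} (hη : 0 < η)
    (hA : ∫ σ in D.a..D.S, ∫ θ in (0:ℝ)..π, (mm η σ θ)⁻¹ ≤ π * arcosh (1 + 2 * exp (-D.a))) :
    4 * D.τ * (arcosh (2 * exp (-D.a) - 1) - arcosh (1 + η + η ^ 2 * exp (-D.a) / 2)) ≤
      2 * D.T * D.τ + 2 * π * arcosh (1 + 2 * exp (-D.a)) := by
  have cu := D.u_cont hη
  have cn : Continuous fun p => ‖D.g p‖ ^ 2 := D.cg.norm.pow 2
  have c1 : Continuous fun p => hh η (D.s p) (D.A (D.s p) p.1) * ‖D.g p‖ ^ 2 :=
    (cu.comp (f := fun p : ℝ × ℝ => (D.s p, p.1)) (D.cs.prodMk continuous_fst)).mul cn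
  have c2 : Continuous fun p : ℝ × ℝ => rr η (D.s p, cl (D.A (D.s p) p.1)) * ‖D.g p‖ :=
    ((rr_cont hη).comp (D.cs.prodMk (cl_cont.comp (D.A_cont.comp
      (f := fun p : ℝ × ℝ => (D.s p, p.1)) (D.cs.prodMk continuous_fst))))).mul D.cg.norm
  have c3 : Continuous fun σ => HH η σ (2 * π) :=
    intervalIntegral.continuous_parametric_intervalIntegral_of_continuous (f := hh η)
      (hh_cont hη) continuous_const
  have c4 : Continuous fun σ => hh η σ (2 * π) * (D.A σ D.τ - 2 * π) :=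
    ((hh_cont hη).comp (f := fun σ => (σ, 2 * π)) (by fun_prop)).mul
      ((D.A_cont1 _).sub continuous_const)
  have a1 := D.area hη
  have a2 : ∫ σ in D.a..D.S, HH η σ (D.A σ D.τ) ≤
      ∫ σ in D.a..D.S, (HH η σ (2 * π) + hh η σ (2 * π) * (D.A σ D.τ - 2 * π)) :=
    intervalIntegral.integral_mono_on D.aS ((D.HA_cont hη _).intervalIntegrable _ _)
      ((c3.add c4).intervalIntegrable _ _) fun σ _ => by
        linarith [HH_conc hη σ (D.A σ D.τ) (2 * π)]
  rw [intervalIntegral.integral_add (c3.intervalIntegrable _ _) (c4.intervalIntegrable _ _)] at a2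
  have a3 := D.abel hη
  simp only [HH_two_pi] at a2
  rw [intervalIntegral.integral_const_mul] at a2
  have b1 : ∫ p in D.R 0 D.τ D.a, 2 * (rr η (D.s p, cl (D.A (D.s p) p.1)) * ‖D.g p‖) ≤
      ∫ p in D.R 0 D.τ D.a, (1 + hh η (D.s p) (D.A (D.s p) p.1) * ‖D.g p‖ ^ 2) := by
    refine integral_mono ((D.iR c2 _ _ _).const_mul _) (D.iR (continuous_const.add c1) _ _ _)
      fun p => ?_
    have : hh η (D.s p) (D.A (D.s p) p.1) = rr η (D.s p, cl (D.A (D.s p) p.1)) ^ 2 := by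
      rw [hh, rr, inv_pow, sq_sqrt (mm_nonneg _ _ _)]
    beta_reduce
    rw [this]
    nlinarith [sq_nonneg (rr η (D.s p, cl (D.A (D.s p) p.1)) * ‖D.g p‖ - 1)]
  rw [integral_const_mul, integral_add (D.iR continuous_const _ _ _) (D.iR c1 _ _ _)] at b1
  have b2 : ∫ p in D.R 0 D.τ D.a, (1:ℝ) ≤ 2 * D.T * D.τ := by
    refine (setIntegral_mono_set (iQ continuous_const 0 D.τ (-D.T) D.T)
      (Eventually.of_forall fun _ => zero_le_one) inter_subset_left.eventuallyLE).trans ?_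
    rw [Measure.volume_eq_prod, setIntegral_prod _ (iQ continuous_const _ _ _ _)]
    have := D.hT
    have := D.hτ
    simp only [integral_const, MeasurableSet.univ, measureReal_restrict_apply, univ_inter,
      volume_real_Ioc, smul_eq_mul, mul_one, sub_zero]
    rw [max_eq_left (by linarith), max_eq_left (by linarith)]
    linarith
  have b3 : D.τ * (2 * (arcosh (2 * exp (-D.a) - 1) - arcosh (1 + η + η ^ 2 * exp (-D.a) / 2))) ≤
      ∫ p in D.R 0 D.τ D.a, rr η (D.s p, cl (D.A (D.s p) p.1)) * ‖D.g p‖ := by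
    have i1 := (iQ c2 0 D.τ (-D.T) D.T).indicator (D.mR0 D.a)
    rw [R, ← setIntegral_indicator (D.mR0 _), Measure.volume_eq_prod, setIntegral_prod _ i1]
    have i2 := i1
    rw [IntegrableOn, Measure.volume_eq_prod, ← Measure.prod_restrict] at i2
    refine le_trans ?_ (integral_mono (integrable_const (2 * (arcosh (2 * exp (-D.a) - 1) -
      arcosh (1 + η + η ^ 2 * exp (-D.a) / 2)))) i2.integral_prod_left fun t => ?_)
    · have := D.hτ
      simp only [integral_const, MeasurableSet.univ, measureReal_restrict_apply, univ_inter,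
        volume_real_Ioc, smul_eq_mul, sub_zero]
      rw [max_eq_left (by linarith)]
    · refine (D.line hη t).trans (le_of_eq ?_)
      rw [intE]
      rfl
  linarith

theorem core (hA : ∀ η > 0,
    ∫ σ in D.a..D.S, ∫ θ in (0:ℝ)..π, (mm η σ θ)⁻¹ ≤ π * arcosh (1 + 2 * exp (-D.a))) :
    4 * D.τ * arcosh (2 * exp (-D.a) - 1) ≤ 2 * D.T * D.τ + 2 * π * arcosh (1 + 2 * exp (-D.a)) := by
  have t1 : Tendsto (fun η : ℝ => 1 + η + η ^ 2 * exp (-D.a) / 2) (𝓝[>] 0) (𝓝[Ici 1] 1) := by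
    refine tendsto_nhdsWithin_iff.2 ⟨?_, ?_⟩
    · have : Continuous fun η : ℝ => 1 + η + η ^ 2 * exp (-D.a) / 2 := by fun_prop
      simpa using (this.tendsto 0).mono_left nhdsWithin_le_nhds
    · filter_upwards [self_mem_nhdsWithin] with η hη
      have : 0 < η := hη
      have : 0 ≤ η ^ 2 * exp (-D.a) / 2 := by positivity
      simp only [mem_Ici]; linarith
  have t2 := (continuousOn_arcosh 1 self_mem_Ici).tendsto.comp t1
  rw [arcosh_zero] at t2
  have t3 := (t2.const_sub (arcosh (2 * exp (-D.a) - 1))).const_mul (4 * D.τ)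
  rw [sub_zero] at t3
  refine le_of_tendsto t3 ?_
  filter_upwards [self_mem_nhdsWithin] with η hη
  exact D.core1 hη (hA η hη)

end Dat

end Pool.Agent.H.MP_281b2c_an
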