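import Pool.Agent.H.MP_281b2c_an.A

set_option autoImplicit false
open Set MeasureTheory Filter Topology
open scoped Real ENNReal

namespace Pool.Agent.H.MP_281b2c_an

noncomputable def dR (c : ℂ) : ℂ →L[ℝ] ℂ := (ContinuousLinearMap.toSpanSingleton ℂ c).restrictScalars ℝ

theorem dR_det (c : ℂ) : |(dR c).det| = ‖c‖ ^ 2 := by
  simp [dR, ContinuousLinearMap.det, LinearMap.det_restrictScalars, Algebra.norm_complex_eq,
    Complex.normSq_eq_norm_sq]

theorem dR_has {F : ℂ → ℂ} {c z : ℂ} (h : HasDerivAt F c z) : HasFDerivAt F (dR c) z :=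
  h.hasFDerivAt.restrictScalars ℝ

theorem cov {F F' : ℂ → ℂ} {B : Set ℂ} (hB : MeasurableSet B) (hF : ∀ z ∈ B, HasDerivAt F (F' z) z)
    (hi : InjOn F B) (φ : ℂ → ℝ≥0∞) :
    ∫⁻ w in F '' B, φ w = ∫⁻ z in B, ENNReal.ofReal (‖F' z‖ ^ 2) * φ (F z) := by
  rw [lintegral_image_eq_lintegral_abs_det_fderiv_mul volume hB
    (fun z hz => (dR_has (hF z hz)).hasFDerivWithinAt) hi]
  simp only [dR_det]

theorem NI {F : ℂ → ℂ} {U : Set ℂ} (hU : MeasurableSet U) (hF : ∀ z ∈ U, AnalyticAt ℂ F z) :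
    ∫⁻ z in U, ENNReal.ofReal (‖deriv F z‖ ^ 2) ≤
      ∫⁻ w, ENat.toENNReal (Set.encard {z | z ∈ U ∧ F z = w}) := by
  have mC : MeasurableSet {z | deriv F z ≠ 0} := (measurable_deriv F) (measurableSet_singleton 0).compl
  obtain ⟨V, hV⟩ : ∃ V, V = U ∩ {z | deriv F z ≠ 0} := ⟨_, rfl⟩
  have mV : MeasurableSet V := hV ▸ hU.inter mC
  have e1 : ∫⁻ z in U, ENNReal.ofReal (‖deriv F z‖ ^ 2) = ∫⁻ z in V, ENNReal.ofReal (‖deriv F z‖ ^ 2) := by
    rw [hV, inter_comm, ← Measure.restrict_restrict mC, ← lintegral_indicator mC]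
    congr 1; funext z
    by_cases h : deriv F z = 0
    · simp [h]
    · rw [indicator_of_mem (by exact h)]
  rw [e1]
  rcases V.eq_empty_or_nonempty with h0 | h0
  · simp [h0]
  have loc : ∀ z ∈ V, ∃ O, IsOpen O ∧ z ∈ O ∧ InjOn F O := by
    intro z hz
    rw [hV] at hz
    have h1 := ((hF z hz.1).hasStrictDerivAt.hasStrictFDerivAt_equiv hz.2).eventually_left_inverse
    obtain ⟨O, h2, h3, h4⟩ := eventually_nhds_iff.1 h1
    exact ⟨O, h3, h4, fun a ha b hb hab => by rw [← h2 a ha, ← h2 b hb, hab]⟩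
  choose! O hO using loc
  obtain ⟨t, ht, htc, hcov⟩ := TopologicalSpace.countable_cover_nhdsWithin (f := O) (s := V)
    fun z hz => mem_nhdsWithin_of_mem_nhds ((hO z hz).1.mem_nhds (hO z hz).2.1)
  have tne : t.Nonempty := by
    obtain ⟨z, hz⟩ := h0
    obtain ⟨y, hy, _⟩ := mem_iUnion₂.1 (hcov hz)
    exact ⟨y, hy⟩
  obtain ⟨e, he⟩ := htc.exists_eq_range tne
  have eV : ∀ n, e n ∈ V := fun n => ht (he ▸ mem_range_self n)
  obtain ⟨P, hP⟩ : ∃ P : ℕ → Set ℂ, P = fun n => V ∩ disjointed (fun n => O (e n)) n := ⟨_, rfl⟩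
  have mP : ∀ n, MeasurableSet (P n) := fun n => hP ▸ mV.inter
    (MeasurableSet.disjointed (fun n => (hO _ (eV n)).1.measurableSet) n)
  have dP : Pairwise (Function.onFun Disjoint P) := fun i j hij => by
    rw [hP]
    exact (disjoint_disjointed (fun n => O (e n)) hij).mono inter_subset_right inter_subset_right
  have uP : V = ⋃ n, P n := by
    rw [hP, ← inter_iUnion, iUnion_disjointed]
    refine (inter_eq_left.2 fun z hz => ?_).symm
    obtain ⟨y, hy, h⟩ := mem_iUnion₂.1 (hcov hz)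
    rw [he] at hy
    obtain ⟨n, rfl⟩ := hy
    exact mem_iUnion.2 ⟨n, h⟩
  have PU : ∀ n, P n ⊆ U := fun n z hz => by rw [hP, hV] at hz; exact hz.1.1
  have iP : ∀ n, InjOn F (P n) := fun n => (hO _ (eV n)).2.2.mono fun z hz => by
    rw [hP] at hz; exact disjointed_subset (fun n => O (e n)) n hz.2
  have dF : ∀ n, ∀ z ∈ P n, HasDerivAt F (deriv F z) z := fun n z hz =>
    (hF z (PU n hz)).differentiableAt.hasDerivAt
  have mI : ∀ n, MeasurableSet (F '' P n) := fun n => measurable_image_of_fderivWithin (mP n)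
    (fun z hz => (dR_has (dF n z hz)).hasFDerivWithinAt) (iP n)
  rw [uP, lintegral_iUnion mP dP]
  have e2 : ∀ n, ∫⁻ z in P n, ENNReal.ofReal (‖deriv F z‖ ^ 2) =
      ∫⁻ w, (F '' P n).indicator 1 w := fun n => by
    have := cov (mP n) (dF n) (iP n) (fun _ => 1)
    simp only [mul_one] at this
    rw [← this, lintegral_indicator (mI n)]; rfl
  simp only [e2]
  rw [← lintegral_tsum fun n => (measurable_one.indicator (mI n)).aemeasurable]
  refine lintegral_mono fun w => ?_
  have e3 : ∑' n, (F '' P n).indicator (1 : ℂ → ℝ≥0∞) w = ∑' _ : {n | w ∈ F '' P n}, (1 : ℝ≥0∞) := by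
    rw [tsum_subtype {n | w ∈ F '' P n} (fun _ => (1 : ℝ≥0∞))]
    rfl
  beta_reduce
  rw [e3, ENNReal.tsum_set_one, ENat.toENNReal_le]
  have ch : ∀ n ∈ {n | w ∈ F '' P n}, ∃ z ∈ P n, F z = w := fun n hn => hn
  choose! k hk using ch
  refine encard_le_encard_of_injOn (f := k) (fun n hn => ⟨PU n (hk n hn).1, (hk n hn).2⟩) ?_
  intro i hi j hj hij
  by_contra hne
  exact disjoint_left.1 (dP hne) (hk i hi).1 (hij ▸ (hk j hj).1)

theorem cosh_re (z : ℂ) : (Complex.cosh z).re = Real.cosh z.re * Real.cos z.im := by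
  conv_lhs => rw [← Complex.re_add_im z, Complex.cosh_add, Complex.cosh_mul_I, Complex.sinh_mul_I]
  simp [← Complex.ofReal_cosh, ← Complex.ofReal_sinh, ← Complex.ofReal_cos, ← Complex.ofReal_sin]

theorem cosh_im (z : ℂ) : (Complex.cosh z).im = Real.sinh z.re * Real.sin z.im := by
  conv_lhs => rw [← Complex.re_add_im z, Complex.cosh_add, Complex.cosh_mul_I, Complex.sinh_mul_I]
  simp [← Complex.ofReal_cosh, ← Complex.ofReal_sinh, ← Complex.ofReal_cos, ← Complex.ofReal_sin]

theorem cosh_norm (z : ℂ) : Real.sinh z.re ^ 2 ≤ ‖Complex.cosh z‖ ^ 2 := by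
  rw [Complex.sq_norm, Complex.normSq_apply, cosh_re, cosh_im]
  have h1 := Real.cosh_sq z.re
  have h2 := Real.sin_sq_add_cos_sq z.im
  have h3 : Real.cosh z.re * Real.cos z.im * (Real.cosh z.re * Real.cos z.im) +
      Real.sinh z.re * Real.sin z.im * (Real.sinh z.re * Real.sin z.im) =
      Real.cosh z.re ^ 2 * Real.cos z.im ^ 2 + Real.sinh z.re ^ 2 * Real.sin z.im ^ 2 := by ring
  rw [h3, h1]
  nlinarith [sq_nonneg (Real.cos z.im)]

theorem cosh_half_re {z : ℂ} (h1 : -π < z.im) (h2 : z.im < π) : 0 < (Complex.cosh (z / 2)).re := by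
  rw [cosh_re]
  refine mul_pos (Real.cosh_pos _) (Real.cos_pos_of_mem_Ioo ?_)
  simp only [Complex.div_ofNat_im]
  constructor <;> linarith

theorem cosh_inj {a b : ℂ} (ha : 0 < a.im) (ha' : a.im < π) (hb : 0 < b.im) (hb' : b.im < π)
    (h : Complex.cosh (a / 2) ^ 2 = Complex.cosh (b / 2) ^ 2) : a = b := by
  have e : ∀ z : ℂ, Complex.cos (z * Complex.I) = 2 * Complex.cosh (z / 2) ^ 2 - 1 := fun z => by
    have := Complex.cosh_two_mul (z / 2)
    rw [show 2 * (z / 2) = z by ring, Complex.sinh_sq] at this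
    rw [Complex.cos_mul_I, this]; ring
  have h1 : Complex.cos (a * Complex.I) = Complex.cos (b * Complex.I) := by rw [e, e, h]
  obtain ⟨k, hk | hk⟩ := Complex.cos_eq_cos_iff.1 h1
  · have r := congrArg Complex.re hk
    simp at r
    have k0 : k = 0 := by
      have p := Real.pi_pos
      have h2 : (k:ℝ) < 1 := by nlinarith
      have h3 : (-1:ℝ) < k := by nlinarith
      have h4 : k < 1 := by exact_mod_cast h2
      have h5 : -1 < k := by exact_mod_cast h3
      omega
    rw [k0] at hk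
    simp at hk
    exact hk.symm
  · have r := congrArg Complex.re hk
    simp at r
    have p := Real.pi_pos
    have h2 : (k:ℝ) < 0 := by nlinarith
    have h3 : (-1:ℝ) < k := by nlinarith
    have h4 : k < 0 := by exact_mod_cast h2
    have h5 : -1 < k := by exact_mod_cast h3
    omega

theorem lam_surj {l : ℂ} (h1 : 0 < l.im) (h2 : l.im < π) :
    ∃ z : ℂ, 0 < z.re ∧ Real.cosh z.re ≤ 1 + 2 * Real.exp (-l.re) ∧ -π < z.im ∧ z.im < 0 ∧
      -2 * Complex.log (Complex.cosh (z / 2)) = l := by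
  have p := Real.pi_pos
  obtain ⟨c, hc⟩ : ∃ c, c = Complex.exp (-l / 2) := ⟨_, rfl⟩
  have c1 : 0 < c.re := by
    rw [hc, Complex.exp_re]
    refine mul_pos (Real.exp_pos _) (Real.cos_pos_of_mem_Ioo ?_)
    simp only [Complex.div_ofNat_im, Complex.neg_im]
    constructor <;> linarith
  have c2 : c.im < 0 := by
    rw [hc, Complex.exp_im]
    refine mul_neg_of_pos_of_neg (Real.exp_pos _) (Real.sin_neg_of_neg_of_neg_pi_lt ?_ ?_) <;>
    simp only [Complex.div_ofNat_im, Complex.neg_im] <;> linarith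
  have s1 : ∃ y : ℂ, 0 ≤ y.re ∧ Complex.cosh y = c := by
    obtain ⟨w, hw⟩ := Complex.cos_surjective c
    rw [← Complex.cosh_mul_I] at hw
    rcases le_total 0 (w * Complex.I).re with h | h
    · exact ⟨_, h, hw⟩
    · exact ⟨-(w * Complex.I), by simpa using h, by rw [Complex.cosh_neg, hw]⟩
  obtain ⟨y0, hy0, hy1⟩ := s1
  obtain ⟨y, hy⟩ : ∃ y, y = Complex.log (Complex.exp y0) := ⟨_, rfl⟩
  have y1 : y.re = y0.re := by rw [hy, Complex.log_re, Complex.norm_exp, Real.log_exp]
  have y2 : Complex.cosh y = c := by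
    have : Complex.exp y = Complex.exp y0 := by rw [hy, Complex.exp_log (Complex.exp_ne_zero _)]
    rw [← hy1, Complex.cosh, Complex.cosh, Complex.exp_neg, Complex.exp_neg, this]
  have y3 : -π < y.im := by rw [hy, Complex.log_im]; exact Complex.neg_pi_lt_arg _
  have y4 : y.im ≤ π := by rw [hy, Complex.log_im]; exact Complex.arg_le_pi _
  rw [← y2, cosh_re] at c1
  rw [← y2, cosh_im] at c2
  have d1 : 0 < Real.cos y.im := (mul_pos_iff_of_pos_left (Real.cosh_pos _)).1 c1
  have d2 : 0 ≤ Real.sinh y.re := Real.sinh_nonneg_iff.2 (y1 ▸ hy0)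
  have d3 : Real.sin y.im < 0 := by
    by_contra h; push Not at h; linarith [mul_nonneg d2 h]
  have d4 : 0 < Real.sinh y.re := by
    rcases d2.eq_or_lt with h | h
    · rw [← h] at c2; simp at c2
    · exact h
  have d5 : y.im < 0 := by
    by_contra h; push Not at h; linarith [Real.sin_nonneg_of_nonneg_of_le_pi h y4]
  have d6 : -(π / 2) < y.im := by
    by_contra h; push Not at h
    have := Real.cos_nonpos_of_pi_div_two_le_of_le (x := -y.im) (by linarith) (by linarith)
    rw [Real.cos_neg] at this; linarith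
  refine ⟨2 * y, by simpa using Real.sinh_pos_iff.1 d4, ?_, by simp; linarith, by simp; linarith, ?_⟩
  · have n1 := cosh_norm y
    have n2 : ‖Complex.cosh y‖ ^ 2 = Real.exp (-l.re) := by
      rw [y2, hc, Complex.norm_exp, ← Real.exp_nat_mul]; congr 1; simp; ring
    have : (2 * y).re = 2 * y.re := by simp
    rw [this, Real.cosh_two_mul, Real.cosh_sq]
    linarith
  · rw [show 2 * y / 2 = y by ring, y2, hc, Complex.log_exp]
    · ring
    · simp only [Complex.div_ofNat_im, Complex.neg_im]; linarith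
    · simp only [Complex.div_ofNat_im, Complex.neg_im]; linarith

theorem mm_ge_norm (η : ℝ) (l : ℂ) : ‖1 - Complex.exp l‖ ≤ mm η l.re l.im := by
  apply le_of_sq_le_sq _ (mm_nonneg _ _ _)
  rw [mm_sq, Complex.sq_norm, Complex.normSq_apply]
  simp only [Complex.sub_re, Complex.one_re, Complex.exp_re, Complex.sub_im, Complex.one_im,
    Complex.exp_im]
  have h2 := Real.sin_sq_add_cos_sq l.im
  have h3 : Real.exp l.re ^ 2 * (Real.sin l.im ^ 2 + Real.cos l.im ^ 2) = Real.exp l.re ^ 2 := by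
    rw [h2, mul_one]
  nlinarith [sq_nonneg η]

theorem area0 {η : ℝ} (hη : 0 < η) {a S : ℝ} (h : a ≤ S) :
    ∫ σ in a..S, ∫ θ in (0:ℝ)..π, (mm η σ θ)⁻¹ ≤ π * Real.arcosh (1 + 2 * Real.exp (-a)) := by
  have p := Real.pi_pos
  obtain ⟨X, hX⟩ : ∃ X, X = Real.arcosh (1 + 2 * Real.exp (-a)) := ⟨_, rfl⟩
  have hx1 : 1 ≤ 1 + 2 * Real.exp (-a) := by linarith [Real.exp_pos (-a)]
  have hX0 : 0 ≤ X := hX ▸ Real.arcosh_nonneg hx1
  rw [← hX]
  have c1 : Continuous fun p : ℝ × ℝ => (mm η p.1 p.2)⁻¹ :=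
    (mm_cont η).inv₀ fun p => (mm_pos hη _ _).ne'
  have i1 : IntegrableOn (fun p : ℝ × ℝ => (mm η p.1 p.2)⁻¹) (Ioc a S ×ˢ Ioo 0 π) :=
    (c1.continuousOn.integrableOn_compact ((isCompact_Icc (a := a) (b := S)).prod
      (isCompact_Icc (a := 0) (b := π)))).mono_set (prod_mono Ioc_subset_Icc_self Ioo_subset_Icc_self)
  have e1 : ∫ σ in a..S, ∫ θ in (0:ℝ)..π, (mm η σ θ)⁻¹ =
      ∫ p in Ioc a S ×ˢ Ioo 0 π, (mm η p.1 p.2)⁻¹ := by
    rw [Measure.volume_eq_prod, setIntegral_prod _ i1, intervalIntegral.integral_of_le h]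
    simp only [intervalIntegral.integral_of_le p.le, integral_Ioc_eq_integral_Ioo]
  rw [e1, ← ENNReal.ofReal_le_ofReal_iff (by positivity), ofReal_integral_eq_lintegral_ofReal i1
    (Eventually.of_forall fun p => (inv_pos.2 (mm_pos hη _ _)).le),
    ← Complex.volume_preserving_equiv_real_prod.setLIntegral_comp_preimage_emb
      Complex.measurableEquivRealProd.measurableEmbedding]
  obtain ⟨B, hB⟩ : ∃ B, B = Complex.measurableEquivRealProd ⁻¹' (Ioc 0 X ×ˢ Ioo (-π) 0) := ⟨_, rfl⟩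
  have mB0 : MeasurableSet (Ioc 0 X ×ˢ Ioo (-π) 0) := measurableSet_Ioc.prod measurableSet_Ioo
  have mB : MeasurableSet B := hB ▸ Complex.measurableEquivRealProd.measurable mB0
  have vB : volume B = ENNReal.ofReal (π * X) := by
    rw [hB, Complex.volume_preserving_equiv_real_prod.measure_preimage mB0.nullMeasurableSet,
      Measure.volume_eq_prod, Measure.prod_prod, Real.volume_Ioc, Real.volume_Ioo,
      ← ENNReal.ofReal_mul (by linarith)]
    congr 1; ring
  have memB : ∀ z ∈ B, -π < z.im ∧ z.im < 0 := fun z hz => by rw [hB] at hz; exact hz.2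
  have ne : ∀ z ∈ B, 0 < (Complex.cosh (z / 2)).re := fun z hz =>
    cosh_half_re (memB z hz).1 (by linarith [(memB z hz).2])
  have ne' : ∀ z ∈ B, Complex.cosh (z / 2) ≠ 0 := fun z hz h => by
    have := ne z hz; rw [h] at this; simp at this
  have ex : ∀ z ∈ B, Complex.exp (-2 * Complex.log (Complex.cosh (z / 2))) =
      (Complex.cosh (z / 2) ^ 2)⁻¹ := fun z hz => by
    rw [show -2 * Complex.log (Complex.cosh (z / 2)) = -((2:ℕ) * Complex.log (Complex.cosh (z / 2))) by
      push_cast; ring, Complex.exp_neg, Complex.exp_nat_mul, Complex.exp_log (ne' z hz)]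
  have cv := cov (F := fun z => -2 * Complex.log (Complex.cosh (z / 2)))
    (F' := fun z => -(Complex.sinh (z / 2) / Complex.cosh (z / 2))) mB (fun z hz => by
      have := (((hasDerivAt_id z).div_const 2).ccosh.clog (Or.inl (ne z hz))).const_mul (-2)
      refine this.congr_deriv ?_
      simp only [id]; ring) (fun a ha b hb hab => by
      have h1 := congrArg Complex.exp hab
      beta_reduce at h1
      rw [ex a ha, ex b hb, inv_inj] at h1
      refine neg_injective (cosh_inj (by simpa using (memB a ha).2) (by simp; linarith [(memB a ha).1])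
        (by simpa using (memB b hb).2) (by simp; linarith [(memB b hb).1]) ?_)
      rw [neg_div, neg_div, Complex.cosh_neg, Complex.cosh_neg, h1])
    (fun l => ENNReal.ofReal (mm η l.re l.im)⁻¹)
  refine le_trans (lintegral_mono_set (t := (fun z => -2 * Complex.log (Complex.cosh (z / 2))) '' B)
    fun l hl => ?_) ?_
  · obtain ⟨z, z1, z2, z3, z4, z5⟩ := lam_surj hl.2.1 hl.2.2
    refine ⟨z, ?_, z5⟩
    rw [hB]
    refine ⟨⟨z1, ?_⟩, z3, z4⟩
    have l1 : a < l.re := hl.1.1
    have := Real.exp_le_exp.2 (neg_le_neg l1.le)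
    change z.re ≤ X
    rw [hX, ← Real.arcosh_cosh z1.le]
    exact (Real.arcosh_le_arcosh (Real.cosh_pos _) (by linarith)).2 (by linarith)
  · refine cv.le.trans ?_
    rw [← vB, ← setLIntegral_one]
    refine setLIntegral_mono' mB fun z hz => ?_
    rw [← ENNReal.ofReal_mul (by positivity), ENNReal.ofReal_le_one, ← div_eq_mul_inv,
      div_le_one (mm_pos hη _ _)]
    refine le_trans (le_of_eq ?_) (mm_ge_norm η _)
    rw [ex z hz, ← norm_pow]
    congr 1
    have := ne' z hz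
    rw [neg_sq, div_pow, Complex.sinh_sq]
    field_simp

end Pool.Agent.H.MP_281b2c_an
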