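import Pool.Agent.H.MP_281b2c_an.D
import Pool.Agent.H.MP_281b2c_an.E

set_option autoImplicit false
open Set MeasureTheory Filter Topology Complex
open scoped Real ENNReal

namespace Pool.Agent.H.MP_281b2c_an

def St : Set ℂ := {z | -π < z.im ∧ z.im < π}

theorem St_open : IsOpen St :=
  (isOpen_lt continuous_const continuous_im).inter (isOpen_lt continuous_im continuous_const)

noncomputable def PP : ℝ × ℝ →L[ℝ] ℂ :=
  (ContinuousLinearMap.snd ℝ ℝ ℝ).smulRight (1:ℂ) + (ContinuousLinearMap.fst ℝ ℝ ℝ).smulRight I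

theorem PP_apply (p : ℝ × ℝ) : PP p = p.2 + p.1 * I := by simp [PP]

theorem PP_im (p : ℝ × ℝ) : (PP p).im = p.1 := by simp [PP_apply]

theorem PP_re (p : ℝ × ℝ) : (PP p).re = p.2 := by simp [PP_apply]

theorem lognorm {F : ℂ → ℂ} {z : ℂ} (hF : AnalyticAt ℂ F z) (h0 : F z ≠ 0) :
    HasFDerivAt (fun w => Real.log ‖F w‖) (reCLM.comp (dR (deriv F z / F z))) z := by
  have h1 : HasDerivAt (fun w => log (F w / F z)) (deriv F z / F z) z := by
    have := (hF.differentiableAt.hasDerivAt.div_const (F z)).clog (by rw [div_self h0]; exact one_mem_slitPlane)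
    refine this.congr_deriv ?_
    rw [div_self h0, div_one]
  have h2 := (reCLM.hasFDerivAt.comp z (dR_has h1)).add_const (Real.log ‖F z‖)
  refine h2.congr_of_eventuallyEq ?_
  filter_upwards [hF.continuousAt.eventually_ne h0] with w hw
  simp only [Function.comp, reCLM_apply, log_re, norm_div]
  rw [Real.log_div (norm_ne_zero_iff.2 hw) (norm_ne_zero_iff.2 h0)]; ring

theorem dR_apply (c w : ℂ) : dR c w = w * c := by simp [dR]

theorem green {F : ℂ → ℂ} (hF : AnalyticOnNhd ℂ F St) (h0 : ∀ z ∈ St, F z ≠ 0) {φ β : ℝ → ℝ}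
    (hφ : Continuous φ) (hβ : ∀ x, HasDerivAt β (φ x) x) {T t1 t2 : ℝ} (hT : 0 < T)
    (h1 : -π < t1) (h12 : t1 ≤ t2) (h2 : t2 < π)
    (hs : ∀ t ∈ Icc t1 t2, β (Real.log ‖F (PP (t, T))‖) = 0 ∧ β (Real.log ‖F (PP (t, -T))‖) = 0) :
    ∫ p in Ioc t1 t2 ×ˢ Ioc (-T) T, φ (Real.log ‖F (PP p)‖) * ‖deriv F (PP p) / F (PP p)‖ ^ 2 =
      (∫ ξ in Ioc (-T) T, β (Real.log ‖F (PP (t1, ξ))‖) * (deriv F (PP (t1, ξ)) / F (PP (t1, ξ))).im) -
      ∫ ξ in Ioc (-T) T, β (Real.log ‖F (PP (t2, ξ))‖) * (deriv F (PP (t2, ξ)) / F (PP (t2, ξ))).im := by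
  obtain ⟨G, hG⟩ : ∃ G : ℂ → ℂ, G = fun z => deriv F z / F z := ⟨_, rfl⟩
  have eG : ∀ z, deriv F z / F z = G z := fun z => by rw [hG]
  have aG : AnalyticOnNhd ℂ G St := hG ▸ hF.deriv.div hF h0
  have mem : ∀ p : ℝ × ℝ, p.1 ∈ Icc t1 t2 → PP p ∈ St := fun p hp =>
    ⟨by rw [PP_im]; linarith [hp.1], by rw [PP_im]; linarith [hp.2]⟩
  have d1 : ∀ p, PP p ∈ St → HasFDerivAt (fun p => β (Real.log ‖F (PP p)‖))
      (φ (Real.log ‖F (PP p)‖) • ((reCLM.comp (dR (G (PP p)))).comp PP)) p := fun p hp => by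
    have := (lognorm (hF _ hp) (h0 _ hp)).comp p PP.hasFDerivAt
    rw [eG] at this
    exact (hβ _).comp_hasFDerivAt p this
  have d2 : ∀ p, PP p ∈ St → HasFDerivAt (fun p => G (PP p)) ((dR (deriv G (PP p))).comp PP) p :=
    fun p hp => (dR_has (aG _ hp).differentiableAt.hasDerivAt).comp p PP.hasFDerivAt
  have df := fun p hp => ((d1 p hp).fun_mul (imCLM.hasFDerivAt.comp p (d2 p hp))).fun_neg
  have dg := fun p hp => (d1 p hp).fun_mul (reCLM.hasFDerivAt.comp p (d2 p hp))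
  have hTT : -T ≤ T := by linarith
  have cint : ContinuousOn (fun p : ℝ × ℝ => φ (Real.log ‖F (PP p)‖) * ‖G (PP p)‖ ^ 2)
      (Icc t1 t2 ×ˢ Icc (-T) T) := fun p hp => by
    have m := mem p hp.1
    have c1 := ((lognorm (hF _ m) (h0 _ m)).comp p PP.hasFDerivAt).continuousAt
    exact ((hφ.continuousAt.comp c1).mul ((d2 p m).continuousAt.norm.pow 2)).continuousWithinAt
  have iint := cint.integrableOn_compact (μ := volume) (isCompact_Icc.prod isCompact_Icc)
  have key := integral2_divergence_prod_of_hasFDerivAt_off_countable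
    (fun p => -(β (Real.log ‖F (PP p)‖) * (imCLM ∘ fun p => G (PP p)) p))
    (fun p => β (Real.log ‖F (PP p)‖) * (reCLM ∘ fun p => G (PP p)) p) _ _ t1 (-T) t2 T ∅ countable_empty
    (by rw [uIcc_of_le h12]; exact fun p hp => (df p (mem p hp.1)).continuousAt.continuousWithinAt)
    (by rw [uIcc_of_le h12]; exact fun p hp => (dg p (mem p hp.1)).continuousAt.continuousWithinAt)
    (by rw [min_eq_left h12, max_eq_right h12]
        exact fun p hp => df p (mem p (Ioo_subset_Icc_self hp.1.1)))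
    (by rw [min_eq_left h12, max_eq_right h12]
        exact fun p hp => dg p (mem p (Ioo_subset_Icc_self hp.1.1))) ?_
  · simp only [eG]
    rw [Measure.volume_eq_prod, setIntegral_prod _ (iint.mono_set
      (prod_mono Ioc_subset_Icc_self Ioc_subset_Icc_self)), ← intervalIntegral.integral_of_le h12]
    simp only [← intervalIntegral.integral_of_le hTT]
    have z1 : ∫ t in t1..t2, β (Real.log ‖F (PP (t, T))‖) * (reCLM ∘ fun p => G (PP p)) (t, T) = 0 := by
      rw [intervalIntegral.integral_congr (g := fun _ => 0)]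
      · simp
      · intro t ht; rw [uIcc_of_le h12] at ht; simp [(hs t ht).1]
    have z2 : ∫ t in t1..t2, β (Real.log ‖F (PP (t, -T))‖) * (reCLM ∘ fun p => G (PP p)) (t, -T) = 0 := by
      rw [intervalIntegral.integral_congr (g := fun _ => 0)]
      · simp
      · intro t ht; rw [uIcc_of_le h12] at ht; simp [(hs t ht).2]
    rw [z1, z2, intervalIntegral.integral_neg, intervalIntegral.integral_neg] at key
    simp only [Function.comp, imCLM_apply] at key
    refine Eq.trans ?_ (key.trans (by ring))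
    congr 1; funext t; congr 1; funext ξ
    simp [PP_apply, dR_apply, Complex.sq_norm, normSq_apply]
    ring
  · rw [uIcc_of_le h12, uIcc_of_le hTT]
    refine iint.congr_fun (fun p _ => ?_) (measurableSet_Icc.prod measurableSet_Icc)
    simp [PP_apply, dR_apply, Complex.sq_norm, normSq_apply]
    ring

theorem maxm {F : ℂ → ℂ} (hF : AnalyticOnNhd ℂ F St) (hev : ∀ z, F (-z) = F z) (h1 : 1 ≤ ‖F 0‖)
    {T c e : ℝ} (hT : 0 < T) (hc : 0 ≤ c) (hc' : c < π) (he : e < 1)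
    (hs : ∀ t ∈ Icc (-c) c, ‖F (PP (t, T))‖ ≤ e) : ∃ ξ ∈ Icc (-T) T, 1 ≤ ‖F (PP (c, ξ))‖ := by
  rcases hc.eq_or_lt with rfl | hc0
  · exact ⟨0, ⟨by linarith, hT.le⟩, by simpa [PP_apply] using h1⟩
  have p := Real.pi_pos
  have cc : Continuous fun ξ => ‖F (PP (c, ξ))‖ :=
    (hF.continuousOn.comp_continuous (f := fun ξ => PP (c, ξ)) (by fun_prop)
      fun ξ => ⟨by rw [PP_im]; linarith, by rw [PP_im]; linarith⟩).norm
  obtain ⟨ξ0, h0, hm⟩ := (isCompact_Icc (a := -T) (b := T)).exists_isMaxOn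
    (nonempty_Icc.2 (by linarith)) cc.continuousOn
  refine ⟨ξ0, h0, ?_⟩
  by_contra hlt
  push Not at hlt
  have zz : ∀ z : ℂ, z = PP (z.im, z.re) := fun z => by rw [PP_apply, re_add_im]
  have := norm_le_of_forall_mem_frontier_norm_le (f := F) (U := Ioo (-T) T ×ℂ Ioo (-c) c)
    ((Metric.isBounded_Ioo _ _).reProdIm (Metric.isBounded_Ioo _ _)) ?_
    (C := max e ‖F (PP (c, ξ0))‖) ?_ (z := 0)
    (subset_closure ⟨by simpa using hT, by simpa using hc0⟩)
  · linarith [max_lt he hlt]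
  · refine DifferentiableOn.diffContOnCl (hF.differentiableOn.mono ?_)
    rw [closure_reProdIm, closure_Ioo (by linarith), closure_Ioo (by linarith)]
    exact fun z hz => ⟨by linarith [hz.2.1], by linarith [hz.2.2]⟩
  · intro z hz
    rw [frontier_reProdIm, closure_Ioo (by linarith), closure_Ioo (by linarith),
      frontier_Ioo (by linarith), frontier_Ioo (by linarith)] at hz
    rcases hz with ⟨a, b | b⟩ | ⟨a | a, b⟩
    · refine le_max_of_le_right ?_
      rw [← hev, zz (-z), neg_im, show z.im = -c from b, neg_neg]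
      exact hm (show (-z).re ∈ Icc (-T) T from ⟨by simpa using a.2, by
        have : -T ≤ z.re := a.1
        simp; linarith⟩)
    · refine le_max_of_le_right ?_
      rw [zz z, show z.im = c from b]
      exact hm a
    · refine le_max_of_le_left ?_
      rw [← hev, zz (-z), neg_re, show z.re = -T from a, neg_neg]
      exact hs _ ⟨by simpa using b.2, by
        have : -c ≤ z.im := b.1
        simp; linarith⟩
    · refine le_max_of_le_left ?_
      rw [zz z, show z.re = T from a]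
      exact hs _ b

theorem lev {F : ℂ → ℂ} (hF : AnalyticOnNhd ℂ F St) (h0 : ∀ z ∈ St, F z ≠ 0) {T c : ℝ}
    (hc : -π < c) (hc' : c < π) {x y : ℝ} (hx : x ∈ Icc (-T) T) (hy : y ∈ Icc (-T) T)
    (hne : ‖F (PP (c, x))‖ ≠ ‖F (PP (c, y))‖) (σ : ℝ) :
    {ξ | ξ ∈ Icc (-T) T ∧ Real.log ‖F (PP (c, ξ))‖ = σ}.Countable := by
  have mem : ∀ ξ, PP (c, ξ) ∈ St := fun ξ => ⟨by rw [PP_im]; linarith, by rw [PP_im]; linarith⟩
  have a1 : ∀ ξ : ℝ, AnalyticAt ℝ (fun ξ : ℝ => F (PP (c, ξ))) ξ := fun ξ =>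
    (hF _ (mem ξ)).restrictScalars.comp (f := fun ξ : ℝ => PP (c, ξ))
      ((PP.analyticAt _).comp (analyticAt_const.prod analyticAt_id))
  have a2 : AnalyticOnNhd ℝ (fun ξ : ℝ => ‖F (PP (c, ξ))‖ ^ 2 - Real.exp σ ^ 2) (Icc (-T) T) := by
    intro ξ _
    simp only [Complex.sq_norm, normSq_apply]
    have r := (reCLM.analyticAt _).comp (a1 ξ)
    have i := (imCLM.analyticAt _).comp (a1 ξ)
    exact ((r.mul r).add (i.mul i)).sub analyticAt_const
  rcases a2.eqOn_zero_or_eventually_ne_zero_of_preconnected isPreconnected_Icc with h | h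
  · have e1 := h hx
    have e2 := h hy
    simp only [Pi.zero_apply] at e1 e2
    exact absurd ((sq_eq_sq₀ (norm_nonneg _) (norm_nonneg _)).1 (by linarith)) hne
  · refine ((isCompact_Icc.finite_sdiff_of_mem_codiscreteWithin h).subset ?_).countable
    rintro ξ ⟨a, b⟩
    refine ⟨a, fun h => h ?_⟩
    rw [← b, Real.exp_log (norm_pos_iff.2 (h0 _ (mem ξ))), sub_self]

theorem strip {F : ℂ → ℂ} (hF : AnalyticOnNhd ℂ F St) (h0 : ∀ z ∈ St, F z ≠ 0)
    (hev : ∀ z, F (-z) = F z) (h1 : 1 ≤ ‖F 0‖) {T τ a : ℝ} (hT : 0 < T) (hτ : 0 < τ) (hτ' : τ < π)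
    (ha : a < 0) (hs : ∀ t ∈ Icc (-τ) τ, ‖F (PP (t, T))‖ ≤ Real.exp a)
    (hA : ∀ b, a ≤ b → ∫⁻ z in {z : ℂ | 0 < z.im ∧ z.im < π ∧ Real.exp a < ‖F z‖ ∧ ‖F z‖ ≤ Real.exp b},
      ENNReal.ofReal (‖deriv F z‖ ^ 2) ≤ ENNReal.ofReal (π * (Real.exp b ^ 2 - Real.exp a ^ 2))) :
    4 * τ * Real.arcosh (2 * Real.exp (-a) - 1) ≤
      2 * T * τ + 2 * π * Real.arcosh (1 + 2 * Real.exp (-a)) := by
  obtain ⟨c, hc⟩ : ∃ c : ℝ → ℝ, c = fun t => max 0 (min t τ) := ⟨_, rfl⟩
  have c0 : ∀ t, 0 ≤ c t := fun t => by rw [hc]; exact le_max_left _ _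
  have c1 : ∀ t, c t ≤ τ := fun t => by rw [hc]; exact max_le hτ.le (min_le_right _ _)
  have c2 : ∀ t, 0 ≤ t → t ≤ τ → c t = t := fun t a b => by
    rw [hc]; beta_reduce; rw [min_eq_left b, max_eq_right a]
  have c3 : Continuous c := by rw [hc]; fun_prop
  have p := Real.pi_pos
  have mem : ∀ t ξ, PP (c t, ξ) ∈ St := fun t ξ =>
    ⟨by rw [PP_im]; linarith [c0 t], by rw [PP_im]; linarith [c1 t]⟩
  have cP : Continuous fun p : ℝ × ℝ => PP (c p.1, p.2) := by fun_prop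
  have cF : Continuous fun p : ℝ × ℝ => F (PP (c p.1, p.2)) :=
    hF.continuousOn.comp_continuous cP fun p => mem _ _
  have cs : Continuous fun p : ℝ × ℝ => Real.log ‖F (PP (c p.1, p.2))‖ :=
    cF.norm.log fun p => norm_ne_zero_iff.2 (h0 _ (mem _ _))
  have cd : Continuous fun p : ℝ × ℝ => deriv F (PP (c p.1, p.2)) :=
    hF.deriv.continuousOn.comp_continuous cP fun p => mem _ _
  have cg : Continuous fun p : ℝ × ℝ => deriv F (PP (c p.1, p.2)) / F (PP (c p.1, p.2)) :=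
    cd.div cF fun p => h0 _ (mem _ _)
  have K := (isCompact_Icc (a := 0) (b := τ)).prod (isCompact_Icc (a := -T) (b := T))
  obtain ⟨S, hS⟩ := K.exists_bound_of_continuousOn cs.continuousOn
  obtain ⟨B, hB⟩ := K.exists_bound_of_continuousOn cg.continuousOn
  have ea : Real.exp a < 1 := Real.exp_lt_one_iff.2 ha
  have sd : ∀ t ∈ Icc (-τ) τ, ‖F (PP (t, -T))‖ ≤ Real.exp a := fun t ht => by
    rw [← hev, ← map_neg]
    simpa using hs (-t) ⟨by linarith [ht.2], by linarith [ht.1]⟩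
  have lg : ∀ z ∈ St, ‖F z‖ ≤ Real.exp a → Real.log ‖F z‖ ≤ a := fun z hz h =>
    (Real.log_le_iff_le_exp (norm_pos_iff.2 (h0 z hz))).2 h
  have mx : ∀ t, ∃ ξ ∈ Icc (-T) T, 1 ≤ ‖F (PP (c t, ξ))‖ := fun t =>
    maxm hF hev h1 hT (c0 t) (by linarith [c1 t]) ea fun u hu =>
      hs u ⟨by linarith [hu.1, c1 t], by linarith [hu.2, c1 t]⟩
  have ci : ∀ t, c t ∈ Icc (-τ) τ := fun t => ⟨by linarith [c0 t], c1 t⟩
  refine Dat.core
    { T := T, τ := τ, a := a, S := max S 0, B := B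
      s := fun p => Real.log ‖F (PP (c p.1, p.2))‖
      g := fun p => deriv F (PP (c p.1, p.2)) / F (PP (c p.1, p.2))
      hT := hT, hτ := hτ, ha := ha, hS0 := le_max_right _ _, cs := cs, cg := cg
      hd := ?_, hZ := ?_, hl := fun t => lg _ (mem _ _) (sd _ (ci t))
      hr := fun t => lg _ (mem _ _) (hs _ (ci t)), hmax := ?_, hS := ?_, hB := ?_, hse := ?_
      hgo := ?_, hID := ?_, hAI := ?_ } fun η hη => area0 hη (by simp; right; exact ha.le)
  · intro t ξ
    have e1 : HasDerivAt (fun x : ℝ => PP (c t, x)) (PP (0, 1)) ξ :=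
      PP.hasFDerivAt.comp_hasDerivAt ξ ((hasDerivAt_const ξ (c t)).prodMk (hasDerivAt_id ξ))
    have := (lognorm (hF _ (mem t ξ)) (h0 _ (mem t ξ))).comp_hasDerivAt ξ e1
    refine this.congr_deriv ?_
    simp [PP_apply, dR_apply]
  · intro t σ
    obtain ⟨ξ, hξ, h⟩ := mx t
    have q1 : -π < c t := lt_of_lt_of_le (neg_lt_zero.2 p) (c0 t)
    have q2 : c t < π := (c1 t).trans_lt hτ'
    have q3 : ‖F (PP (c t, T))‖ < ‖F (PP (c t, ξ))‖ := ((hs _ (ci t)).trans_lt ea).trans_le h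
    have := lev hF h0 q1 q2 hξ (y := T) ⟨(neg_lt_self hT).le, le_rfl⟩ q3.ne' σ
    beta_reduce
    exact this
  · intro t
    obtain ⟨ξ, hξ, h⟩ := mx t
    exact ⟨ξ, hξ, Real.log_nonneg h⟩
  · intro t ξ hξ
    have := hS (c t, ξ) ⟨⟨c0 t, c1 t⟩, hξ⟩
    simp only [c2 _ (c0 t) (c1 t)] at this
    exact le_max_of_le_left ((le_abs_self _).trans this)
  · intro t ξ hξ
    have := hB (c t, ξ) ⟨⟨c0 t, c1 t⟩, hξ⟩
    simpa only [c2 _ (c0 t) (c1 t)] using this
  · intro ξ
    simp only [c2 0 le_rfl hτ.le]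
    rw [← hev, ← map_neg]; simp
  · intro ξ
    simp only [c2 0 le_rfl hτ.le]
    have e1 : PP (0, -ξ) = -PP (0, ξ) := by rw [← map_neg]; simp
    have e2 := deriv_comp_neg F (PP (0, ξ))
    simp only [hev] at e2
    change deriv F _ = _ at e2
    rw [e1, hev, e2]; ring
  · intro φ β hφ hβ hz t1 t2 a1 a2 a3
    have := green hF h0 hφ hβ hT (t1 := t1) (t2 := t2) (by linarith) a2 (by linarith) fun t ht => by
      have m : ∀ ξ, PP (t, ξ) ∈ St := fun ξ =>
        ⟨by rw [PP_im]; linarith [ht.1], by rw [PP_im]; linarith [ht.2]⟩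
      have i : t ∈ Icc (-τ) τ := ⟨by linarith [ht.1], by linarith [ht.2]⟩
      exact ⟨hz _ (lg _ (m _) (hs t i)), hz _ (lg _ (m _) (sd t i))⟩
    simp only [c2 t1 a1 (by linarith), c2 t2 (by linarith) a3]
    rw [← this]
    refine setIntegral_congr_fun (measurableSet_Ioc.prod measurableSet_Ioc) fun p hp => ?_
    simp only [c2 p.1 (by linarith [hp.1.1]) (by linarith [hp.1.2])]
  · intro b hb
    have mU : MeasurableSet ((Ioc 0 τ ×ˢ Ioc (-T) T) ∩ {p : ℝ × ℝ | a < Real.log ‖F (PP (c p.1, p.2))‖ ∧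
        Real.log ‖F (PP (c p.1, p.2))‖ ≤ b}) :=
      (measurableSet_Ioc.prod measurableSet_Ioc).inter
        ((isOpen_lt continuous_const cs).measurableSet.inter (isClosed_le cs continuous_const).measurableSet)
    have hp : MeasurePreserving (measurableEquivRealProd.trans MeasurableEquiv.prodComm)
        (volume : Measure ℂ) (volume : Measure (ℝ × ℝ)) :=
      Measure.measurePreserving_swap.comp volume_preserving_equiv_real_prod
    have hb2 : 0 ≤ π * (Real.exp b ^ 2 - Real.exp a ^ 2) := by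
      have := Real.exp_le_exp.2 hb
      have := Real.exp_pos a
      exact mul_nonneg p.le (by nlinarith)
    rw [setIntegral_congr_fun mU (g := fun p => ‖deriv F (PP (c p.1, p.2))‖ ^ 2) fun p hp => by
      have := norm_pos_iff.2 (h0 _ (mem p.1 p.2))
      simp only [norm_div, Real.exp_log this]
      field_simp]
    rw [← ENNReal.ofReal_le_ofReal_iff hb2, ofReal_integral_eq_lintegral_ofReal
      ((Dat.iQ (cd.norm.fun_pow 2) _ _ _ _).mono_set inter_subset_left)
      (Eventually.of_forall fun _ => by positivity),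
      ← hp.setLIntegral_comp_preimage_emb (MeasurableEquiv.measurableEmbedding _)]
    refine le_trans ?_ (hA b hb)
    have zz : ∀ z : ℂ, z.im ∈ Ioc 0 τ → PP (c z.im, z.re) = z := fun z hz => by
      rw [c2 _ hz.1.le hz.2, PP_apply, re_add_im]
    refine le_trans (le_of_eq (setLIntegral_congr_fun ((MeasurableEquiv.measurable _) mU)
      (g := fun z => ENNReal.ofReal (‖deriv F z‖ ^ 2)) fun z hz => ?_)) (lintegral_mono_set fun z hz => ?_)
    · have := zz z hz.1.1
      change ENNReal.ofReal (‖deriv F (PP (c z.im, z.re))‖ ^ 2) = _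
      rw [this]
    · have e := zz z hz.1.1
      have h2 : a < Real.log ‖F (PP (c z.im, z.re))‖ ∧ Real.log ‖F (PP (c z.im, z.re))‖ ≤ b := hz.2
      have h3 := norm_pos_iff.2 (h0 _ (mem z.im z.re))
      rw [e] at h2 h3
      have h4 : z.im ∈ Ioc 0 τ := hz.1.1
      exact ⟨h4.1, by linarith [h4.2], (Real.lt_log_iff_exp_lt h3).1 h2.1,
        (Real.log_le_iff_le_exp h3).1 h2.2⟩

end Pool.Agent.H.MP_281b2c_an
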