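import Pool.Agent.H.MP_281b2c_an.F

set_option autoImplicit false
open Set MeasureTheory Filter Topology Complex Metric
open scoped Real ENNReal

namespace Pool.Agent.H.MP_281b2c_an

noncomputable def kk (K : ℝ) (z : ℂ) : ℂ := K / cosh (z / 2) ^ 2

noncomputable def pp (K : ℝ) (z : ℂ) : ℂ := exp (log (1 + 4 * kk K z) / 2)

noncomputable def zz (K : ℝ) (z : ℂ) : ℂ := (pp K z - 1) / (pp K z + 1)

theorem cosh_ne {z : ℂ} (hz : z ∈ St) : cosh (z / 2) ≠ 0 := fun h => by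
  have := cosh_half_re hz.1 hz.2; rw [h] at this; simp at this

theorem kk_slit {K : ℝ} (hK : 0 < K) {z : ℂ} (hz : z ∈ St) : 1 + 4 * kk K z ∈ slitPlane := by
  have h1 := cosh_half_re hz.1 hz.2
  have h2 := cosh_ne hz
  unfold kk
  generalize cosh (z / 2) = c at h1 h2
  have h3 : 0 < (c⁻¹).re := by rw [inv_re]; exact div_pos h1 (normSq_pos.2 h2)
  rw [div_eq_mul_inv, ← inv_pow]
  generalize c⁻¹ = d at h3
  by_cases h : d.im = 0
  · left; simp [sq, h]; positivity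
  · right; simp [sq]
    refine ⟨hK.ne', ?_⟩
    rw [mul_comm d.im, ← two_mul]
    exact mul_ne_zero two_ne_zero (mul_ne_zero h3.ne' h)

theorem pp_sq {K : ℝ} (hK : 0 < K) {z : ℂ} (hz : z ∈ St) : pp K z ^ 2 = 1 + 4 * kk K z := by
  rw [pp, ← exp_nat_mul, show ((2:ℕ):ℂ) * (log (1 + 4 * kk K z) / 2) = log (1 + 4 * kk K z) by
    push_cast; ring, exp_log (slitPlane_ne_zero (kk_slit hK hz))]

theorem pp_re {K : ℝ} (hK : 0 < K) {z : ℂ} (hz : z ∈ St) : 0 < (pp K z).re := by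
  rw [pp, exp_re]
  refine mul_pos (Real.exp_pos _) (Real.cos_pos_of_mem_Ioo ?_)
  have h1 := neg_pi_lt_arg (1 + 4 * kk K z)
  have h2 := lt_of_le_of_ne (arg_le_pi _) (slitPlane_arg_ne_pi (kk_slit hK hz))
  simp only [div_ofNat_im, log_im]
  constructor <;> linarith

theorem pp_ne {K : ℝ} (hK : 0 < K) {z : ℂ} (hz : z ∈ St) : pp K z + 1 ≠ 0 := fun h => by
  have := congrArg re h
  simp at this; linarith [pp_re hK hz]

theorem zz_norm {K : ℝ} (hK : 0 < K) {z : ℂ} (hz : z ∈ St) : ‖zz K z‖ < 1 := by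
  rw [zz, norm_div, div_lt_one (norm_pos_iff.2 (pp_ne hK hz))]
  refine lt_of_pow_lt_pow_left₀ 2 (norm_nonneg _) ?_
  rw [Complex.sq_norm, Complex.sq_norm, normSq_apply, normSq_apply]
  simp
  nlinarith [pp_re hK hz]

theorem zz_eq {K : ℝ} (hK : 0 < K) {z : ℂ} (hz : z ∈ St) : zz K z = kk K z * (1 - zz K z) ^ 2 := by
  have h1 := pp_ne hK hz
  have h2 : kk K z = (pp K z ^ 2 - 1) / 4 := by rw [pp_sq hK hz]; ring
  rw [h2, zz]
  field_simp
  ring

theorem one_sub_ne {K : ℝ} (hK : 0 < K) {z : ℂ} (hz : z ∈ St) : 1 - zz K z ≠ 0 := fun h => by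
  have := zz_norm hK hz
  rw [← sub_eq_zero.1 h] at this; simp at this

theorem zz_ne {K : ℝ} (hK : 0 < K) {z : ℂ} (hz : z ∈ St) : zz K z ≠ 0 := by
  rw [zz_eq hK hz]
  exact mul_ne_zero (div_ne_zero (ofReal_ne_zero.2 hK.ne') (pow_ne_zero _ (cosh_ne hz)))
    (pow_ne_zero _ (one_sub_ne hK hz))

theorem zz_neg (K : ℝ) (z : ℂ) : zz K (-z) = zz K z := by
  simp only [zz, pp, kk, neg_div, cosh_neg]

theorem zz_an {K : ℝ} (hK : 0 < K) : AnalyticOnNhd ℂ (zz K) St := by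
  refine DifferentiableOn.analyticOnNhd (fun z hz => DifferentiableAt.differentiableWithinAt ?_) St_open
  have h1 : DifferentiableAt ℂ (fun z => 1 + 4 * kk K z) z := by
    unfold kk
    have c : DifferentiableAt ℂ (fun z : ℂ => cosh (z / 2) ^ 2) z := by fun_prop
    exact (((differentiableAt_const (K:ℂ)).fun_div c (pow_ne_zero _ (cosh_ne hz))).const_mul 4).const_add 1
  have h2 : DifferentiableAt ℂ (pp K) z := ((h1.clog (kk_slit hK hz)).div_const 2).cexp
  exact (h2.sub_const 1).div (h2.add_const 1) (pp_ne hK hz)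

theorem zz_inj {K : ℝ} (hK : 0 < K) {a b : ℂ} (ha : 0 < a.im) (ha' : a.im < π) (hb : 0 < b.im)
    (hb' : b.im < π) (h : zz K a = zz K b) : a = b := by
  have p := Real.pi_pos
  have ma : a ∈ St := ⟨by linarith, ha'⟩
  have mb : b ∈ St := ⟨by linarith, hb'⟩
  have h1 := zz_eq hK ma
  have h2 := zz_eq hK mb
  rw [h] at h1
  have h3 := mul_right_cancel₀ (pow_ne_zero 2 (one_sub_ne hK mb)) (h1.symm.trans h2)
  unfold kk at h3
  rw [div_eq_mul_inv, div_eq_mul_inv] at h3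
  exact cosh_inj ha ha' hb hb' (inv_injective (mul_left_cancel₀ (ofReal_ne_zero.2 hK.ne') h3))

theorem zz_zero {r : ℝ} (h0 : 0 < r) (h1 : r < 1) : zz (r / (1 - r) ^ 2) 0 = r := by
  have h2 : 0 < 1 - r := by linarith
  have hK : 0 < r / (1 - r) ^ 2 := by positivity
  have m : (0:ℂ) ∈ St := ⟨by simpa using Real.pi_pos, by simpa using Real.pi_pos⟩
  have h3 : (1:ℂ) - r ≠ 0 := by exact_mod_cast h2.ne'
  have e1 : pp (r / (1 - r) ^ 2) 0 ^ 2 = (((1 + r) / (1 - r) : ℝ) : ℂ) ^ 2 := by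
    rw [pp_sq hK m, kk]; simp; field_simp; ring
  rcases sq_eq_sq_iff_eq_or_eq_neg.1 e1 with h | h
  · have h4 := pp_ne hK m
    rw [zz, div_eq_iff h4, h]; push_cast; field_simp; ring
  · have := pp_re hK m
    rw [h, neg_re, ofReal_re] at this
    have : 0 < (1 + r) / (1 - r) := by positivity
    linarith

theorem kk_norm {K : ℝ} (hK : 0 < K) {z : ℂ} (hz : 0 < z.re) : ‖kk K z‖ ≤ K / Real.sinh (z.re / 2) ^ 2 := by
  rw [kk, norm_div, norm_pow, norm_real, Real.norm_of_nonneg hK.le]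
  have := cosh_norm (z / 2)
  rw [div_ofNat_re] at this
  exact div_le_div_of_nonneg_left hK.le (pow_pos (Real.sinh_pos_iff.2 (by linarith)) 2) this

theorem vol_cb {ρ : ℝ} (h : 0 ≤ ρ) : volume (closedBall (0:ℂ) ρ) = ENNReal.ofReal (π * ρ ^ 2) := by
  rw [Complex.volume_closedBall, mul_comm π, ENNReal.ofReal_mul (by positivity),
    ENNReal.ofReal_pow h, ← NNReal.coe_real_pi, ENNReal.ofReal_coe_nnreal]

theorem vol_b {ρ : ℝ} (h : 0 ≤ ρ) : volume (ball (0:ℂ) ρ) = ENNReal.ofReal (π * ρ ^ 2) := by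
  rw [Complex.volume_ball, mul_comm π, ENNReal.ofReal_mul (by positivity),
    ENNReal.ofReal_pow h, ← NNReal.coe_real_pi, ENNReal.ofReal_coe_nnreal]

theorem ann {n : ℂ → ℝ≥0∞} {ρ1 ρ2 : ℝ} (h1 : 0 < ρ1) (h12 : ρ1 ≤ ρ2)
    (hn : ∀ w ∈ closedBall (0:ℂ) ρ1, 1 ≤ n w)
    (h : ∫⁻ w in ball (0:ℂ) ρ2, n w ≤ ENNReal.ofReal (π * ρ2 ^ 2)) :
    ∫⁻ w in closedBall (0:ℂ) ρ2 \ closedBall (0:ℂ) ρ1, n w ≤ ENNReal.ofReal (π * (ρ2 ^ 2 - ρ1 ^ 2)) := by
  have e1 : ball (0:ℂ) ρ2 =ᵐ[volume] closedBall (0:ℂ) ρ2 :=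
    ae_eq_of_subset_of_measure_ge ball_subset_closedBall
      (by rw [vol_cb (by linarith), vol_b (by linarith)]) measurableSet_ball.nullMeasurableSet
      measure_closedBall_lt_top.ne
  rw [Measure.restrict_congr_set e1, ← union_sdiff_cancel (closedBall_subset_closedBall h12),
    lintegral_union (measurableSet_closedBall.diff measurableSet_closedBall) disjoint_sdiff_right] at h
  have e2 : ENNReal.ofReal (π * ρ1 ^ 2) ≤ ∫⁻ w in closedBall (0:ℂ) ρ1, n w := by
    rw [← vol_cb h1.le, ← setLIntegral_one]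
    exact setLIntegral_mono' measurableSet_closedBall hn
  rw [mul_sub, ENNReal.ofReal_sub _ (by positivity)]
  exact ENNReal.le_sub_of_add_le_left ENNReal.ofReal_ne_top ((add_le_add e2 le_rfl).trans h)

theorem fin {μ n T A1 A2 : ℝ} (hμ : 1 < μ) (hn : (8 + 32 * μ) / (16 * μ * (μ - 1)) < n) (hn1 : 1 ≤ n)
    (hT : Real.exp T ≤ 4 * n + 2) (h1 : 4 * (μ * n) - 3 ≤ Real.exp A1)
    (h2 : Real.exp A2 ≤ 4 * (μ * n) + 2) (h : 2 * A1 ≤ T + A2) : False := by
  have e1 := Real.exp_le_exp.2 h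
  rw [Real.exp_add, two_mul, Real.exp_add] at e1
  have e0 : 1 ≤ μ * n := by nlinarith
  have e2 : (4 * (μ * n) - 3) * (4 * (μ * n) - 3) ≤ Real.exp A1 * Real.exp A1 :=
    mul_self_le_mul_self (by linarith) h1
  have e3 : Real.exp T * Real.exp A2 ≤ (4 * n + 2) * (4 * (μ * n) + 2) :=
    mul_le_mul hT h2 (Real.exp_pos _).le (by linarith)
  rw [div_lt_iff₀ (by have : 0 < μ - 1 := by linarith
                      positivity)] at hn
  nlinarith [mul_lt_mul_of_pos_right hn (show 0 < n by linarith)]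

theorem main (f : ℂ → ℂ) (hf : DifferentiableOn ℂ f (ball 0 1)) (f0 : f 0 = 0) (f1 : deriv f 0 = 1)
    (hA : ∀ R : ℝ, 0 < R → (∫⁻ w in ball (0 : ℂ) R,
      ENat.toENNReal (Set.encard {z : ℂ | z ∈ ball (0 : ℂ) 1 ∧ f z = w})) ≤ ENNReal.ofReal (π * R ^ 2))
    (z0 : ℂ) (hz0 : z0 ∈ ball (0:ℂ) 1) : ‖f z0‖ ≤ ‖z0‖ / (1 - ‖z0‖) ^ 2 := by
  have p := Real.pi_pos
  have af := hf.analyticOnNhd isOpen_ball
  have b0 : (0:ℂ) ∈ ball (0:ℂ) 1 := mem_ball_self one_pos
  have sd := (af 0 b0).hasStrictDerivAt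
  rw [f1] at sd
  have mp := sd.map_nhds_eq one_ne_zero
  rw [f0] at mp
  have zf : ∀ z ∈ ball (0:ℂ) 1, z ≠ 0 → f z ≠ 0 := by
    intro z hz hne hfz
    obtain ⟨U, V, hU, hV, h0U, hzV, hUV⟩ := t2_separation hne.symm
    rcases (af z hz).eventually_constant_or_nhds_le_map_nhds with h | h
    · have := af.eqOn_of_preconnected_of_eventuallyEq analyticOnNhd_const
        (convex_ball (0:ℂ) 1).isPreconnected hz h
      have h2 : f =ᶠ[𝓝 0] fun _ => f z := eventually_of_mem (isOpen_ball.mem_nhds b0) this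
      rw [h2.deriv_eq] at f1; simp at f1
    · rw [hfz] at h
      have m1 : f '' (U ∩ ball 0 1) ∈ 𝓝 (0:ℂ) :=
        mp ▸ image_mem_map (inter_mem (hU.mem_nhds h0U) (isOpen_ball.mem_nhds b0))
      have m2 : f '' (V ∩ ball 0 1) ∈ 𝓝 (0:ℂ) :=
        h (image_mem_map (inter_mem (hV.mem_nhds hzV) (isOpen_ball.mem_nhds hz)))
      obtain ⟨δ, hδ, hs⟩ := Metric.mem_nhds_iff.1 (inter_mem m1 m2)
      have e1 : ∫⁻ _ in ball (0:ℂ) δ, (2 : ℝ≥0∞) ≤ ENNReal.ofReal (π * δ ^ 2) := by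
        refine le_trans (setLIntegral_mono' measurableSet_ball fun w hw => ?_) (hA δ hδ)
        obtain ⟨⟨a, ha, ea⟩, b, hb, eb⟩ := hs hw
        have hab : a ≠ b := fun e => disjoint_left.1 hUV ha.1 (e ▸ hb.1)
        have : ({a, b} : Set ℂ) ⊆ {z : ℂ | z ∈ ball (0 : ℂ) 1 ∧ f z = w} := by
          rintro x (rfl | rfl)
          exacts [⟨ha.2, ea⟩, ⟨hb.2, eb⟩]
        have h3 := encard_le_encard this
        rw [encard_pair hab] at h3
        exact_mod_cast ENat.toENNReal_le.2 h3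
      rw [setLIntegral_const, vol_b hδ.le, ← ENNReal.ofReal_ofNat, ← ENNReal.ofReal_mul (by positivity),
        ENNReal.ofReal_le_ofReal_iff (by positivity)] at e1
      have : 0 < π * δ ^ 2 := by positivity
      linarith
  rcases eq_or_ne z0 0 with rfl | hne
  · simp [f0]
  by_contra hlt
  push Not at hlt
  obtain ⟨r, hr⟩ : ∃ r, r = ‖z0‖ := ⟨_, rfl⟩
  have r0 : 0 < r := hr ▸ norm_pos_iff.2 hne
  have r1 : r < 1 := hr ▸ mem_ball_zero_iff.1 hz0
  rw [← hr] at hlt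
  have z00 := zz_zero r0 r1
  obtain ⟨K, hK⟩ : ∃ K, K = r / (1 - r) ^ 2 := ⟨_, rfl⟩
  have K0 : 0 < K := by rw [hK]; have : 0 < 1 - r := by linarith
                        positivity
  rw [← hK] at hlt z00
  obtain ⟨W, hW⟩ : ∃ W, W = ‖f z0‖ := ⟨_, rfl⟩
  rw [← hW] at hlt
  have W0 : 0 < W := K0.trans hlt
  obtain ⟨q, q1, q2⟩ := exists_between (show 1 < W / K from (one_lt_div K0).2 hlt)
  obtain ⟨q', q3, q4⟩ := exists_between q1
  have ev : ∀ᶠ z in 𝓝 (0:ℂ), ‖f z‖ * (1 + ‖z‖) ^ 2 ≤ q * ‖z‖ := by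
    have e1 := sd.hasDerivAt.isLittleO.def (show 0 < q' - 1 by linarith)
    have e2 : ∀ᶠ z in 𝓝 (0:ℂ), q' * (1 + ‖z‖) ^ 2 < q :=
      (isOpen_lt (by fun_prop) continuous_const).mem_nhds (by simpa using q4)
    filter_upwards [e1, e2] with z h1 h2
    simp only [f0, sub_zero, smul_eq_mul, mul_one] at h1
    have h3 : ‖f z‖ ≤ q' * ‖z‖ := by linarith [norm_le_norm_sub_add (f z) z]
    nlinarith [mul_le_mul_of_nonneg_right h3 (sq_nonneg (1 + ‖z‖)),
      mul_le_mul_of_nonneg_right h2.le (norm_nonneg z)]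
  obtain ⟨δ1, hδ1, H1⟩ := Metric.eventually_nhds_iff.1 ev
  obtain ⟨δ2, hδ2, H2⟩ := Metric.mem_nhds_iff.1
    (show f '' ball 0 1 ∈ 𝓝 (0:ℂ) from mp ▸ image_mem_map (isOpen_ball.mem_nhds b0))
  obtain ⟨μ, hμ⟩ : ∃ μ, μ = W / (q * K) := ⟨_, rfl⟩
  have μ1 : 1 < μ := by
    rw [hμ, one_lt_div (by positivity)]; rwa [lt_div_iff₀ K0] at q2
  obtain ⟨n, hn⟩ := exists_gt (max (max ((8 + 32 * μ) / (16 * μ * (μ - 1))) 1) (max (4 * K / δ1) (W / δ2)))
  simp only [max_lt_iff] at hn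
  obtain ⟨⟨n1, n2⟩, n3, n4⟩ := hn
  have n0 : 0 < n := by linarith
  obtain ⟨T, hT⟩ : ∃ T, T = 2 * Real.arsinh √n := ⟨_, rfl⟩
  have T0 : 0 < T := by rw [hT]; have := Real.arsinh_pos_iff.2 (Real.sqrt_pos.2 n0); linarith
  have T1 : Real.sinh (T / 2) ^ 2 = n := by
    rw [hT, mul_div_cancel_left₀ _ two_ne_zero, Real.sinh_arsinh, Real.sq_sqrt n0.le]
  have T2 : Real.exp T ≤ 4 * n + 2 := by
    have e1 := Real.cosh_two_mul (T / 2)
    rw [show 2 * (T / 2) = T by ring, Real.cosh_sq, T1] at e1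
    linarith [Real.cosh_add_sinh T, Real.sinh_lt_cosh T]
  have mn : 1 < μ * n := by nlinarith
  obtain ⟨a, ha⟩ : ∃ a, a = -Real.log (μ * n) := ⟨_, rfl⟩
  have a0 : a < 0 := by rw [ha]; linarith [Real.log_pos mn]
  have a1 : Real.exp (-a) = μ * n := by rw [ha, neg_neg, Real.exp_log (by linarith)]
  have a2 : Real.exp a = (μ * n)⁻¹ := by rw [← a1, Real.exp_neg, inv_inv]
  obtain ⟨u, hu⟩ : ∃ u : ℂ, u = z0 / r := ⟨_, rfl⟩
  have u1 : ‖u‖ = 1 := by rw [hu, norm_div, ← hr, norm_real, Real.norm_of_nonneg r0.le, div_self r0.ne']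
  have u0 : u ≠ 0 := fun h => by rw [h] at u1; simp at u1
  have mZ : ∀ z ∈ St, u * zz K z ∈ ball (0:ℂ) 1 := fun z hz => by
    rw [mem_ball_zero_iff, norm_mul, u1, one_mul]; exact zz_norm K0 hz
  have aF : AnalyticOnNhd ℂ (fun z => f (u * zz K z)) St := fun z hz =>
    (af _ (mZ z hz)).comp (f := fun z => u * zz K z) (analyticAt_const.mul (zz_an K0 z hz))
  have Wc : (W:ℂ) ≠ 0 := ofReal_ne_zero.2 W0.ne'
  have nW : ∀ w : ℂ, ‖w / W‖ = ‖w‖ / W := fun w => by
    rw [norm_div, norm_real, Real.norm_of_nonneg W0.le]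
  have key : ∀ τ, 0 < τ → τ < π → 4 * τ * Real.arcosh (2 * Real.exp (-a) - 1) ≤
      2 * T * τ + 2 * π * Real.arcosh (1 + 2 * Real.exp (-a)) := by
    intro τ hτ hτ'
    refine strip (F := fun z => f (u * zz K z) / W) (fun z hz => (aF z hz).div_const)
      (fun z hz => div_ne_zero (zf _ (mZ z hz) (mul_ne_zero u0 (zz_ne K0 hz))) Wc)
      (fun z => by simp only [zz_neg]) ?_ T0 hτ hτ' a0 ?_ ?_
    · have : u * r = z0 := by rw [hu]; exact div_mul_cancel₀ _ (ofReal_ne_zero.2 r0.ne')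
      rw [nW, z00, this, ← hW, div_self W0.ne']
    · intro t ht
      have m : PP (t, T) ∈ St := ⟨by rw [PP_im]; linarith [ht.1], by rw [PP_im]; linarith [ht.2]⟩
      have e1 := kk_norm K0 (z := PP (t, T)) (by rw [PP_re]; exact T0)
      rw [PP_re, T1] at e1
      have e2 := congrArg norm (zz_eq K0 m)
      have e3 := zz_norm K0 m
      rw [nW]
      generalize PP (t, T) = z at e1 e2 e3
      rw [norm_mul, norm_pow] at e2
      have e4 : ‖1 - zz K z‖ ≤ 1 + ‖zz K z‖ := by simpa using norm_sub_le 1 (zz K z)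
      have e5 : ‖zz K z‖ ≤ K / n * (1 + ‖zz K z‖) ^ 2 :=
        e2.le.trans (mul_le_mul e1 (by gcongr) (by positivity) (by positivity))
      have e6 : ‖zz K z‖ < δ1 := by
        have : (1 + ‖zz K z‖) ^ 2 ≤ 2 ^ 2 := by gcongr; linarith
        have h7 : K / n * (1 + ‖zz K z‖) ^ 2 ≤ K / n * 2 ^ 2 := by gcongr
        have h8 : K / n * 2 ^ 2 < δ1 := by
          rw [div_lt_iff₀ hδ1] at n3
          rw [div_mul_eq_mul_div, div_lt_iff₀ n0]; linarith
        linarith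
      have e7 := H1 (y := u * zz K z) (by rw [dist_zero_right, norm_mul, u1, one_mul]; exact e6)
      rw [norm_mul, u1, one_mul] at e7
      have e8 : ‖f (u * zz K z)‖ ≤ q * (K / n) := by
        refine le_of_mul_le_mul_right (a := (1 + ‖zz K z‖) ^ 2) ?_ (by positivity)
        nlinarith [mul_le_mul_of_nonneg_left e5 (show 0 ≤ q by linarith)]
      rw [div_le_iff₀ W0, a2, hμ]
      refine e8.trans (le_of_eq ?_)
      field_simp
    · intro b hb
      obtain ⟨U, hU⟩ : ∃ U, U = {z : ℂ | 0 < z.im ∧ z.im < π ∧ Real.exp a < ‖f (u * zz K z) / W‖ ∧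
        ‖f (u * zz K z) / W‖ ≤ Real.exp b} := ⟨_, rfl⟩
      rw [← hU]
      have oV : IsOpen {z : ℂ | 0 < z.im ∧ z.im < π} :=
        (isOpen_lt continuous_const continuous_im).inter (isOpen_lt continuous_im continuous_const)
      have sV : {z : ℂ | 0 < z.im ∧ z.im < π} ⊆ St := fun z hz => ⟨by linarith [hz.1], hz.2⟩
      have cV : ContinuousOn (fun z => ‖f (u * zz K z) / W‖) {z : ℂ | 0 < z.im ∧ z.im < π} :=
        ((aF.continuousOn.mono sV).div_const _).norm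
      have mU : MeasurableSet U := by
        convert (cV.isOpen_inter_preimage oV (isOpen_Ioi (a := Real.exp a))).measurableSet.diff
          (cV.isOpen_inter_preimage oV (isOpen_Ioi (a := Real.exp b))).measurableSet using 1
        rw [hU]; ext z
        simp only [mem_ofPred_eq, Set.mem_sdiff, mem_inter_iff, mem_preimage, mem_Ioi, not_and, not_lt]
        tauto
      have US : U ⊆ St := fun z hz => by rw [hU] at hz; exact sV ⟨hz.1, hz.2.1⟩
      have e1 := NI mU fun z hz => aF z (US hz)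
      have e2 := ann (ρ1 := W * Real.exp a) (ρ2 := W * Real.exp b) (by positivity)
        (by gcongr) (fun w hw => ?_) (hA _ (by positivity))
      · have e3 : ∫⁻ w, ENat.toENNReal (Set.encard {z | z ∈ U ∧ f (u * zz K z) = w}) ≤
            ∫⁻ w in closedBall (0:ℂ) (W * Real.exp b) \ closedBall (0:ℂ) (W * Real.exp a),
              ENat.toENNReal (Set.encard {z : ℂ | z ∈ ball (0 : ℂ) 1 ∧ f z = w}) := by
          rw [← lintegral_indicator (measurableSet_closedBall.diff measurableSet_closedBall)]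
          refine lintegral_mono fun w => ?_
          rcases Set.eq_empty_or_nonempty {z | z ∈ U ∧ f (u * zz K z) = w} with h | ⟨z, hz, hw⟩
          · simp only [h, encard_empty, ENat.toENNReal_zero, zero_le]
          · rw [hU] at hz
            obtain ⟨-, -, h3, h4⟩ := hz
            rw [hw, nW] at h3 h4
            rw [indicator_of_mem (by
              rw [Set.mem_sdiff, mem_closedBall_zero_iff, mem_closedBall_zero_iff, not_le]
              rw [lt_div_iff₀ W0] at h3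
              rw [div_le_iff₀ W0] at h4
              constructor <;> linarith), ENat.toENNReal_le]
            refine encard_le_encard_of_injOn (f := fun z => u * zz K z)
              (fun y hy => ⟨mZ y (US hy.1), hy.2⟩) fun x hx y hy hxy => ?_
            have hx' := hx.1
            have hy' := hy.1
            rw [hU] at hx' hy'
            exact zz_inj K0 hx'.1 hx'.2.1 hy'.1 hy'.2.1 (mul_left_cancel₀ u0 hxy)
        have e4 : ∀ z, ENNReal.ofReal (‖deriv (fun z => f (u * zz K z) / W) z‖ ^ 2) =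
            ENNReal.ofReal (W ^ 2)⁻¹ * ENNReal.ofReal (‖deriv (fun z => f (u * zz K z)) z‖ ^ 2) := fun z => by
          rw [deriv_div_const, nW, ← ENNReal.ofReal_mul (by positivity)]
          congr 1; field_simp
        simp only [e4]
        rw [lintegral_const_mul' _ _ ENNReal.ofReal_ne_top]
        refine (mul_le_mul_right (e1.trans (e3.trans e2)) _).trans (le_of_eq ?_)
        rw [← ENNReal.ofReal_mul (by positivity)]
        congr 1; field_simp
      · have : w ∈ ball (0:ℂ) δ2 := by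
          rw [mem_closedBall_zero_iff] at hw
          rw [mem_ball_zero_iff]
          refine hw.trans_lt ?_
          rw [a2, ← div_eq_mul_inv, div_lt_iff₀ (by linarith)]
          rw [div_lt_iff₀ hδ2] at n4
          nlinarith [mul_pos n0 hδ2]
        obtain ⟨x, hx, ex⟩ := H2 this
        have h1 : 1 ≤ Set.encard {z : ℂ | z ∈ ball (0:ℂ) 1 ∧ f z = w} :=
          one_le_encard_iff_nonempty.2 ⟨x, hx, ex⟩
        exact_mod_cast ENat.toENNReal_le.2 h1
  have lim : 4 * π * Real.arcosh (2 * Real.exp (-a) - 1) ≤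
      2 * T * π + 2 * π * Real.arcosh (1 + 2 * Real.exp (-a)) := by
    refine le_of_tendsto_of_tendsto (b := 𝓝[<] π)
      (f := fun τ => 4 * τ * Real.arcosh (2 * Real.exp (-a) - 1))
      (g := fun τ => 2 * T * τ + 2 * π * Real.arcosh (1 + 2 * Real.exp (-a)))
      ((Continuous.tendsto (by fun_prop) π).mono_left nhdsWithin_le_nhds)
      ((Continuous.tendsto (by fun_prop) π).mono_left nhdsWithin_le_nhds) ?_
    filter_upwards [Ioo_mem_nhdsLT p] with τ hτ
    exact key τ hτ.1 hτ.2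
  rw [a1] at lim
  refine fin μ1 n1 n2.le T2 (A1 := Real.arcosh (2 * (μ * n) - 1)) (A2 := Real.arcosh (1 + 2 * (μ * n)))
    ?_ ?_ (le_of_mul_le_mul_left (a := 2 * π) (by linarith) (by positivity))
  · rw [Real.exp_arcosh (by linarith)]
    have : 2 * (μ * n) - 2 ≤ √((2 * (μ * n) - 1) ^ 2 - 1) := Real.le_sqrt_of_sq_le (by nlinarith)
    linarith
  · rw [Real.exp_arcosh (by linarith)]
    have : √((1 + 2 * (μ * n)) ^ 2 - 1) ≤ 1 + 2 * (μ * n) :=
      Real.sqrt_le_iff.2 ⟨by linarith, by linarith⟩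
    linarith

end Pool.Agent.H.MP_281b2c_an
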